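import Mathlib

/-! MP_6cc1fa_pr: definitions (helper60): ranked sequences, stick breaking, the Poisson-Dirichlet
law on `ℕ → ℝ`, the sequence of normalised factor degrees. -/

open MeasureTheory Polynomial

namespace MP6cc1fa

noncomputable section

/-- The `k`-th largest value (`k = 0` is the largest one) of the sequence `v`: the supremum of the
numbers `t` such that at least `k + 1` terms of the sequence are at least `t`. -/
def rank (v : ℕ → ℝ) (k : ℕ) : ℝ :=
  sSup {t : ℝ | ∃ s : Finset ℕ, s.card = k + 1 ∧ ∀ i ∈ s, t ≤ v i}

/-- Stick breaking: `V_i = u_i ∏_{j < i} (1 - u_j)`. -/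
def stick (u : ℕ → ℝ) (i : ℕ) : ℝ := u i * ∏ j ∈ Finset.range i, (1 - u j)

/-- The law of a sequence of independent uniform random variables on `[0, 1]`. -/
def unifSeq : Measure (ℕ → ℝ) :=
  Measure.infinitePi (fun _ : ℕ => (volume : Measure ℝ).restrict (Set.Icc 0 1))

/-- The law of the Poisson-Dirichlet process: the stick breaking lengths `V_i`, arranged in
non-increasing order. -/
def PDlaw : Measure (ℕ → ℝ) := unifSeq.map (fun u => rank (stick u))

/-- The sequence of the normalised degrees of the irreducible factors of `f` (with multiplicity),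
in non-increasing order, padded with zeros. -/
def degSeq {F : Type} [Field F] [DecidableEq F] (f : F[X]) (k : ℕ) : ℝ :=
  ((((UniqueFactorizationMonoid.normalizedFactors f).map natDegree).sort (· ≥ ·)).getD k 0 : ℝ) /
    (f.natDegree : ℝ)

/-- `k`-tuples of monic irreducible polynomials of given degrees whose product divides `f`. -/
def tup {F : Type} [Field F] {k : ℕ} (f : F[X]) (d : Fin k → ℕ) : Set (Fin k → F[X]) :=
  {P | (∀ i, (P i).Monic ∧ Irreducible (P i) ∧ (P i).natDegree = d i) ∧ ∏ i, P i ∣ f}

end

end MP6cc1fa
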