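import Pool.Agent.Lib.MP_6cc1fa_pr.PD.Law

/-! MP_6cc1fa_pr: final assembly from the analytic core (helper60). -/

open MeasureTheory Polynomial Filter Topology UniqueFactorizationMonoid

namespace MP6cc1fa

noncomputable section

open Pool.Agent.MP6cc1fa (mon cnt Irr IrrT nu ch)

variable {p : ℕ} [Fact p.Prime]

theorem nu_scale (z : ZMod p → ℂ) {c : ZMod p} (hc : c ≠ 0) (a : ZMod p) :
    nu (fun x => z (c * x)) a = nu z (a * c⁻¹) := by
  unfold nu
  congr 3
  refine Fintype.sum_equiv (Equiv.mulLeft₀ c hc) _ _ fun x => ?_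
  have h1 : (Equiv.mulLeft₀ c hc) x = c * x := rfl
  have : a * c⁻¹ * (c * x) = a * x := by field_simp
  rw [h1, this]

theorem entropy_scale (z : ZMod p → ℂ) {c : ZMod p} (hc : c ≠ 0) :
    ∑ a, Real.negMulLog (nu (fun x => z (c * x)) a) = ∑ a, Real.negMulLog (nu z a) := by
  simp_rw [nu_scale z hc]
  exact Fintype.sum_equiv (Equiv.mulRight₀ c⁻¹ (inv_ne_zero hc)) _ _ fun a => rfl

theorem log_p_pos : 0 < Real.log p := Real.log_pos (by exact_mod_cast (Fact.out : p.Prime).one_lt)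

/-- the entropy condition excludes the point mass at zero -/
theorem mu_zero_lt (z : ZMod p → ℂ) (hz : ∑ x, ‖z x‖ ^ 2 = 1)
    (hH : 4 * ∑ a, Real.negMulLog (nu z a) < Real.log p) : ‖z 0‖ ^ 2 < 1 := by
  by_contra hcon
  push Not at hcon
  have h0 : ∀ x ≠ 0, z x = 0 := by
    intro x hx
    have h1 : ‖z 0‖ ^ 2 + ‖z x‖ ^ 2 ≤ ∑ x, ‖z x‖ ^ 2 := by
      rw [← Finset.sum_pair hx.symm (f := fun x => ‖z x‖ ^ 2)]
      exact Finset.sum_le_sum_of_subset_of_nonneg (Finset.subset_univ _) fun _ _ _ => by positivity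
    have h2 : ‖z x‖ ^ 2 ≤ 0 := by linarith
    have h3 : ‖z x‖ = 0 := by
      have := sq_nonneg ‖z x‖
      exact pow_eq_zero_iff (two_ne_zero) |>.1 (le_antisymm h2 this)
    exact norm_eq_zero.1 h3
  have h1 : ‖z 0‖ ^ 2 = 1 := by
    rw [← hz, Finset.sum_eq_single 0]
    · intro x _ hx; rw [h0 x hx]; simp
    · intro h; exact absurd (Finset.mem_univ _) h
  have hp : (0 : ℝ) < p := by exact_mod_cast (Fact.out : p.Prime).pos
  have hnu : ∀ a, nu z a = 1 / p := by
    intro a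
    unfold nu
    rw [Finset.sum_eq_single 0]
    · rw [mul_zero, neg_zero]
      have : ch (0 : ZMod p) = 1 := by unfold ch; exact AddChar.map_zero_eq_one _
      rw [this, mul_one, h1]
    · intro x _ hx; rw [h0 x hx, zero_mul]
    · intro h; exact absurd (Finset.mem_univ _) h
  simp_rw [hnu] at hH
  rw [Finset.sum_const, Finset.card_univ, ZMod.card, Real.negMulLog, nsmul_eq_mul,
    Real.log_div one_ne_zero hp.ne', Real.log_one] at hH
  have h5 : (p : ℝ) * (-(1 / p) * (0 - Real.log p)) = Real.log p := by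
    field_simp
    ring
  rw [h5] at hH
  have := log_p_pos (p := p)
  linarith

/-- **Final assembly.** The analytic core implies the Poisson-Dirichlet limit theorem. -/
theorem final_of_core
    (core : ∀ z : ZMod p → ℂ, ∑ x, ‖z x‖ ^ 2 = 1 →
      4 * ∑ a, Real.negMulLog (nu z a) < Real.log p →
      ∃ e' : ℝ, 0 < e' ∧ ∀ k : ℕ, 0 < k → ∀ e1 : ℝ, 0 < e1 → ∀ eta : ℝ, 0 < eta →
        ∀ᶠ n : ℕ in atTop, ∀ d : Fin k → ℕ, (∀ i, e1 * n ≤ d i) →
          e1 * n + ∑ i, (d i : ℝ) ≤ n → (n : ℝ) - ∑ i, (d i : ℝ) ≤ e' * n →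
          1 - eta ≤ (∏ i, (d i : ℝ)) *
            ∑ a : Fin n → ZMod p, (∏ i, ‖z (a i)‖ ^ 2) * (cnt d (mon a) : ℝ))
    (μ : PMF (ZMod p)) (z : ZMod p → ℂ) (hz : ∀ x, ‖z x‖ ^ 2 = (μ x).toReal)
    (hH : 4 * ∑ a, Real.negMulLog (nu z a) < Real.log p) :
    Tendsto (lawP μ) atTop (𝓝 PD) := by
  have h1 : ∑ x, (μ x).toReal = 1 := by
    have h2 := μ.tsum_coe
    rw [tsum_fintype] at h2
    rw [← ENNReal.toReal_sum (fun x _ => μ.apply_ne_top x), h2, ENNReal.toReal_one]
  have hz1 : ∑ x, ‖z x‖ ^ 2 = 1 := by simp_rw [hz]; exact h1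
  refine lawL_tendsto μ ?_ fun c hc g => ?_
  · rw [← hz 0]; exact mu_zero_lt z hz1 hH
  · have hzc : ∑ x, ‖z (c * x)‖ ^ 2 = 1 := by
      rw [← hz1]
      exact Fintype.sum_equiv (Equiv.mulLeft₀ c hc) _ _ fun x => rfl
    obtain ⟨e', he', hcore⟩ := core (fun x => z (c * x)) hzc (by rw [entropy_scale z hc]; exact hH)
    have h3 := pd_of_tuples (F := ZMod p) (fun n => Fin n → ZMod p)
      (fun n a => ∏ i, ‖z (c * a i)‖ ^ 2) (fun n a => mon a)
      (fun n a => Finset.prod_nonneg fun _ _ => by positivity)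
      (fun n => by
        have h4 := (Finset.prod_univ_sum (fun _ : Fin n => (Finset.univ : Finset (ZMod p)))
          (fun _ x => ‖z (c * x)‖ ^ 2)).symm
        rw [Fintype.piFinset_univ] at h4
        rw [h4]
        simp [hzc])
      (fun n a => ⟨(Pool.Agent.MP6cc1fa.mon_aux_monic a).ne_zero,
        Pool.Agent.MP6cc1fa.mon_aux_natDegree a⟩) e' he'
      (fun k hk e1 he1 eta heta => by
        filter_upwards [hcore k hk e1 he1 eta heta] with n hn d hd1 hd2 hd3
        have h5 := hn d hd1 hd2 hd3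
        simp only [cnt_eq_ncard] at h5
        exact h5) g
    refine h3.congr fun n => ?_
    refine Finset.sum_congr rfl fun a _ => ?_
    simp only [hz]

end

end MP6cc1fa
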