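import Pool.Agent.Lib.MP_6cc1fa_pr.PD.Limit
import Pool.Agent.Lib.MP_6cc1fa_pr.Mon

/-! MP_6cc1fa_pr: from monic polynomials with independent lower coefficients to
`f_n = ∑_{i ≤ n} ε_i X^i`; the laws as probability measures (helper60). -/

open MeasureTheory Polynomial Filter Topology UniqueFactorizationMonoid

namespace MP6cc1fa

noncomputable section

open Pool.Agent.MP6cc1fa (mon cnt Irr IrrT nu ch)

variable {p : ℕ} [Fact p.Prime]

theorem cnt_eq_ncard {k : ℕ} (d : Fin k → ℕ) (f : (ZMod p)[X]) : cnt d f = (tup f d).ncard := by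
  classical
  have h : tup f d = (((IrrT p d).filter fun P => ∏ i, P i ∣ f : Finset _) :
      Set (Fin k → (ZMod p)[X])) := by
    ext P
    rw [Finset.mem_coe, Finset.mem_filter, IrrT, Fintype.mem_piFinset]
    constructor
    · rintro ⟨h1, h2⟩
      exact ⟨fun i => (Pool.Agent.MP6cc1fa.mem_Irr _ _).2 ⟨(h1 i).1, (h1 i).2.2, (h1 i).2.1⟩, h2⟩
    · rintro ⟨h1, h2⟩
      refine ⟨fun i => ?_, h2⟩
      have := (Pool.Agent.MP6cc1fa.mem_Irr _ _).1 (h1 i)
      exact ⟨this.1, this.2.2, this.2.1⟩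
  rw [h, Set.ncard_coe_finset]
  unfold cnt
  rfl

theorem degSeq_C_mul {c : ZMod p} (hc : c ≠ 0) (f : (ZMod p)[X]) :
    degSeq (C c * f) = degSeq f := by
  have hu : IsUnit (C c : (ZMod p)[X]) := (isUnit_iff_ne_zero.2 hc).map C
  have h : Associated (C c * f) f := (associated_unit_mul_left f _ hu)
  funext k
  unfold degSeq
  rw [h.normalizedFactors_eq, natDegree_C_mul hc]

/-- The polynomial with the given coefficients. -/
def poly {n : ℕ} (a : Fin n → ZMod p) : (ZMod p)[X] := ∑ i, C (a i) * X ^ (i : ℕ)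

theorem poly_snoc {n : ℕ} (a : Fin n → ZMod p) (c : ZMod p) :
    poly (Fin.snoc a c : Fin (n + 1) → ZMod p) = poly a + C c * X ^ n := by
  unfold poly
  rw [Fin.sum_univ_castSucc]
  simp

theorem poly_scale {n : ℕ} (b : Fin n → ZMod p) (c : ZMod p) :
    poly (fun i => c * b i) + C c * X ^ n = C c * mon b := by
  unfold poly mon
  rw [mul_add, Finset.mul_sum, add_comm]
  congr 1
  refine Finset.sum_congr rfl fun i _ => ?_
  rw [C_mul]; ring

/-- expectation of `G` of a random polynomial with `n` independent digits -/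
def EE (μ : ZMod p → ℝ) (G : (ZMod p)[X] → ℝ) (n : ℕ) : ℝ :=
  ∑ a : Fin n → ZMod p, (∏ i, μ (a i)) * G (poly a)

/-- expectation of `G` of a random monic polynomial -/
def MM (μ : ZMod p → ℝ) (G : (ZMod p)[X] → ℝ) (c : ZMod p) (n : ℕ) : ℝ :=
  ∑ a : Fin n → ZMod p, (∏ i, μ (c * a i)) * G (mon a)

theorem EE_succ (μ : ZMod p → ℝ) (G : (ZMod p)[X] → ℝ)
    (hG : ∀ (c : ZMod p), c ≠ 0 → ∀ f, G (C c * f) = G f) (n : ℕ) :
    EE μ G (n + 1) = μ 0 * EE μ G n + ∑ c ∈ Finset.univ.erase (0 : ZMod p), μ c * MM μ G c n := by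
  have h1 : EE μ G (n + 1) = ∑ c : ZMod p, μ c * ∑ a : Fin n → ZMod p,
      (∏ i, μ (a i)) * G (poly a + C c * X ^ n) := by
    unfold EE
    rw [← Fintype.sum_equiv (Fin.snocEquiv (fun _ : Fin (n + 1) => ZMod p))
      (fun q => μ q.1 * ((∏ i, μ (q.2 i)) * G (poly q.2 + C q.1 * X ^ n))) _ ?_,
      Fintype.sum_prod_type]
    · simp_rw [Finset.mul_sum]
    · rintro ⟨c, a⟩
      have h2 : (Fin.snocEquiv (fun _ : Fin (n + 1) => ZMod p)) (c, a) =
          (Fin.snoc a c : Fin (n + 1) → ZMod p) := rfl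
      rw [h2, poly_snoc, Fin.prod_univ_castSucc]
      simp only [Fin.snoc_castSucc, Fin.snoc_last]
      ring
  rw [h1, ← Finset.add_sum_erase _ _ (Finset.mem_univ (0 : ZMod p))]
  congr 1
  · simp [EE]
  · refine Finset.sum_congr rfl fun c hc => ?_
    have hc0 : c ≠ 0 := (Finset.mem_erase.1 hc).1
    congr 1
    unfold MM
    symm
    refine Fintype.sum_equiv (Equiv.piCongrRight fun _ : Fin n => Equiv.mulLeft₀ c hc0) _ _ ?_
    intro b
    have h2 : (Equiv.piCongrRight fun _ : Fin n => Equiv.mulLeft₀ c hc0) b = fun i => c * b i := rfl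
    rw [h2, poly_scale, hG c hc0]

/-- a contraction lemma -/
theorem tendsto_zero_of_contr {x ε : ℕ → ℝ} {q : ℝ} (hq0 : 0 ≤ q) (hq1 : q < 1)
    (hx : ∀ n, 0 ≤ x n) (h : ∀ n, x (n + 1) ≤ q * x n + ε n) (hε : Tendsto ε atTop (𝓝 0)) :
    Tendsto x atTop (𝓝 0) := by
  rw [tendsto_order]
  refine ⟨fun a ha => Eventually.of_forall fun n => ha.trans_le (hx n), fun a ha => ?_⟩
  have h1 : 0 < a / 2 * (1 - q) := by
    have : 0 < 1 - q := by linarith
    positivity
  obtain ⟨N, hN⟩ := eventually_atTop.1 (hε.eventually (ge_mem_nhds h1))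
  have h2 : ∀ m, x (N + m) ≤ q ^ m * x N + a / 2 := by
    intro m
    induction m with
    | zero => simp; linarith
    | succ m ih =>
      have h3 := h (N + m)
      have h4 := hN (N + m) (by omega)
      have h5 : q * x (N + m) ≤ q * (q ^ m * x N + a / 2) := mul_le_mul_of_nonneg_left ih hq0
      rw [← add_assoc]
      calc x (N + m + 1) ≤ q * x (N + m) + ε (N + m) := h3
        _ ≤ q * (q ^ m * x N + a / 2) + a / 2 * (1 - q) := add_le_add h5 h4
        _ = q ^ (m + 1) * x N + a / 2 := by ring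
  have h3 : Tendsto (fun m : ℕ => q ^ m * x N) atTop (𝓝 0) := by
    have := (tendsto_pow_atTop_nhds_zero_of_lt_one hq0 hq1).mul_const (x N)
    rwa [zero_mul] at this
  obtain ⟨M, hM⟩ := eventually_atTop.1 (h3.eventually (gt_mem_nhds (half_pos ha)))
  filter_upwards [eventually_ge_atTop (N + M)] with n hn
  obtain ⟨m, rfl⟩ := Nat.exists_eq_add_of_le (show N ≤ n by omega)
  have h4 := h2 m
  have h5 := hM m (by omega)
  linarith

/-- from the monic models to the polynomial with independent coefficients -/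
theorem EE_tendsto (μ : ZMod p → ℝ) (h0 : ∀ x, 0 ≤ μ x) (h1 : ∑ x, μ x = 1) (hμ : μ 0 < 1)
    (G : (ZMod p)[X] → ℝ) (hG : ∀ (c : ZMod p), c ≠ 0 → ∀ f, G (C c * f) = G f) (I : ℝ)
    (H : ∀ c : ZMod p, c ≠ 0 → Tendsto (MM μ G c) atTop (𝓝 I)) :
    Tendsto (EE μ G) atTop (𝓝 I) := by
  have hsum : ∑ c ∈ Finset.univ.erase (0 : ZMod p), μ c = 1 - μ 0 := by
    rw [← h1, ← Finset.add_sum_erase _ _ (Finset.mem_univ (0 : ZMod p))]; ring
  have hε : Tendsto (fun n => ∑ c ∈ Finset.univ.erase (0 : ZMod p), μ c * |MM μ G c n - I|) atTop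
      (𝓝 0) := by
    have : Tendsto (fun n => ∑ c ∈ Finset.univ.erase (0 : ZMod p), μ c * |MM μ G c n - I|) atTop
        (𝓝 (∑ c ∈ Finset.univ.erase (0 : ZMod p), μ c * 0)) := by
      refine tendsto_finsetSum _ fun c hc => ?_
      have h2 := ((H c (Finset.mem_erase.1 hc).1).sub (tendsto_const_nhds (x := I))).abs
      rw [sub_self, abs_zero] at h2
      exact h2.const_mul _
    simpa using this
  have h3 : Tendsto (fun n => |EE μ G n - I|) atTop (𝓝 0) := by
    refine tendsto_zero_of_contr (h0 0) hμ (fun n => abs_nonneg _) (fun n => ?_) hε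
    have h4 : EE μ G (n + 1) - I = μ 0 * (EE μ G n - I) +
        ∑ c ∈ Finset.univ.erase (0 : ZMod p), μ c * (MM μ G c n - I) := by
      rw [EE_succ μ G hG n]
      simp_rw [mul_sub]
      rw [Finset.sum_sub_distrib, ← Finset.sum_mul, hsum]
      ring
    rw [h4]
    refine (abs_add_le _ _).trans (add_le_add ?_ ?_)
    · rw [abs_mul, abs_of_nonneg (h0 0)]
    · refine (Finset.abs_sum_le_sum_abs _ _).trans (Finset.sum_le_sum fun c _ => ?_)
      rw [abs_mul, abs_of_nonneg (h0 c)]
  rw [tendsto_iff_dist_tendsto_zero]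
  simpa [Real.dist_eq] using h3

instance PDlaw_prob : IsProbabilityMeasure PDlaw := by
  unfold PDlaw
  exact Measure.isProbabilityMeasure_map (measurable_rank.comp measurable_stick').aemeasurable

/-- the law of `L^(n)`: the coefficients `ε_0, …, ε_n` are independent with law `μ`. -/
def lawL (μ : PMF (ZMod p)) (n : ℕ) : Measure (ℕ → ℝ) :=
  (Measure.pi fun _ : Fin (n + 1) => μ.toMeasure).map (fun a => degSeq (poly a))

theorem measurable_fin {n : ℕ} {β : Type} [MeasurableSpace β] (f : (Fin n → ZMod p) → β) :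
    Measurable f := measurable_of_countable f

instance lawL_prob (μ : PMF (ZMod p)) (n : ℕ) : IsProbabilityMeasure (lawL μ n) := by
  unfold lawL
  exact Measure.isProbabilityMeasure_map (measurable_fin _).aemeasurable

theorem integral_lawL (μ : PMF (ZMod p)) (n : ℕ) (g : BoundedContinuousFunction (ℕ → ℝ) ℝ) :
    ∫ x, g x ∂(lawL μ n) =
      EE (fun x => (μ x).toReal) (fun f => g (degSeq f)) (n + 1) := by
  unfold lawL
  rw [integral_map (measurable_fin _).aemeasurable
      g.continuous.measurable.aestronglyMeasurable, integral_fintype _]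
  · unfold EE
    refine Finset.sum_congr rfl fun a _ => ?_
    rw [smul_eq_mul]
    congr 1
    rw [Measure.real, Measure.pi_singleton, ENNReal.toReal_prod]
    refine Finset.prod_congr rfl fun i _ => ?_
    rw [PMF.toMeasure_apply_singleton _ _ (measurableSet_singleton _)]
  · exact Integrable.of_finite

/-- The law of `L^(n)` as a point of the space of probability measures on `ℕ → ℝ` (product
topology, i.e. coordinatewise convergence). -/
def lawP (μ : PMF (ZMod p)) (n : ℕ) : ProbabilityMeasure (ℕ → ℝ) := ⟨lawL μ n, lawL_prob μ n⟩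

/-- The Poisson-Dirichlet law as a point of the space of probability measures on `ℕ → ℝ`. -/
def PD : ProbabilityMeasure (ℕ → ℝ) := ⟨PDlaw, PDlaw_prob⟩

/-- **Passage from the monic models to the laws of `L^(n)`.** -/
theorem lawL_tendsto (μ : PMF (ZMod p)) (hμ : (μ 0).toReal < 1)
    (H : ∀ c : ZMod p, c ≠ 0 → ∀ g : BoundedContinuousFunction (ℕ → ℝ) ℝ,
      Tendsto (fun n => ∑ a : Fin n → ZMod p, (∏ i, (μ (c * a i)).toReal) * g (degSeq (mon a)))
        atTop (𝓝 (∫ x, g x ∂PDlaw))) :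
    Tendsto (lawP μ) atTop (𝓝 PD) := by
  rw [ProbabilityMeasure.tendsto_iff_forall_integral_tendsto]
  intro g
  have h1 : ∑ x, (μ x).toReal = 1 := by
    have h2 := μ.tsum_coe
    rw [tsum_fintype] at h2
    rw [← ENNReal.toReal_sum (fun x _ => μ.apply_ne_top x), h2, ENNReal.toReal_one]
  have h2 := EE_tendsto (fun x => (μ x).toReal) (fun x => ENNReal.toReal_nonneg) h1 hμ
    (fun f => g (degSeq f)) (fun c hc f => by rw [degSeq_C_mul hc]) (∫ x, g x ∂PDlaw)
    (fun c hc => H c hc g)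
  have h3 := h2.comp (tendsto_add_atTop_nat 1)
  refine h3.congr fun n => ?_
  exact (integral_lawL μ n g).symm

end

end MP6cc1fa
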