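import Pool.Agent.Lib.MP_6cc1fa_pr.PD.Tuples

/-! MP_6cc1fa_pr: the limit step (helper60): from a lower bound for the correlations of tuples of
prime divisors to convergence in distribution to the Poisson-Dirichlet law. -/

open MeasureTheory Polynomial Filter Topology UniqueFactorizationMonoid

namespace MP6cc1fa

noncomputable section

/-- uniform continuity on the cube in the sup sense -/
theorem exists_delta {g : (ℕ → ℝ) → ℝ} (hg : Continuous g) {ε : ℝ} (hε : 0 < ε) :
    ∃ δ : ℝ, 0 < δ ∧ ∀ x y : ℕ → ℝ, (∀ j, x j ∈ Set.Icc (0 : ℝ) 1) →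
      (∀ j, y j ∈ Set.Icc (0 : ℝ) 1) → (∀ j, |x j - y j| ≤ δ) → |g x - g y| ≤ ε := by
  set K : Set (ℕ → ℝ) := Set.pi Set.univ (fun _ => Set.Icc (0 : ℝ) 1) with hK
  have hKc : IsCompact K := isCompact_univ_pi fun _ => isCompact_Icc
  have huc : UniformContinuousOn g K := hKc.uniformContinuousOn_of_continuous hg.continuousOn
  by_contra hcon
  push Not at hcon
  have hpos : ∀ n : ℕ, (0 : ℝ) < 1 / ((n : ℝ) + 1) := fun n => by positivity
  choose x y hx hy hxy hgxy using fun n : ℕ => hcon _ (hpos n)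
  have h1 : Tendsto (fun n => (x n, y n)) atTop (uniformity (ℕ → ℝ)) := by
    rw [Pi.uniformity, tendsto_iInf]
    intro i
    rw [tendsto_comap_iff]
    have h2 : Tendsto (fun n => dist (x n i) (y n i)) atTop (𝓝 0) := by
      refine squeeze_zero (fun n => dist_nonneg) (fun n => ?_) tendsto_one_div_add_atTop_nhds_zero_nat
      rw [Real.dist_eq]; exact hxy n i
    exact tendsto_uniformity_iff_dist_tendsto_zero.2 h2
  have h2 : Tendsto (fun n => (x n, y n)) atTop (uniformity (ℕ → ℝ) ⊓ 𝓟 (K ×ˢ K)) :=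
    tendsto_inf.2 ⟨h1, tendsto_principal.2 (Eventually.of_forall fun n =>
      ⟨fun j _ => hx n j, fun j _ => hy n j⟩)⟩
  have h3 : Tendsto (fun p : (ℕ → ℝ) × (ℕ → ℝ) => (g p.1, g p.2))
      (uniformity (ℕ → ℝ) ⊓ 𝓟 (K ×ˢ K)) (uniformity ℝ) := huc
  have h4 := (h3.comp h2) (Metric.dist_mem_uniformity hε)
  obtain ⟨n, hn⟩ := (eventually_atTop.1 h4)
  have h5 := hn n le_rfl
  have h6 := hgxy n
  simp only [Function.comp] at h5
  have h7 : dist (g (x n)) (g (y n)) < ε := h5
  rw [Real.dist_eq] at h7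
  linarith

/-- cut-off functions -/
def psi (t : ℝ) : ℝ := min 1 (max 0 (t - 1))

theorem psi_cont : Continuous psi := by unfold psi; fun_prop

theorem psi_nonneg (t : ℝ) : 0 ≤ psi t := le_min zero_le_one (le_max_left _ _)

theorem psi_le (t : ℝ) : psi t ≤ 1 := min_le_left _ _

theorem psi_ne {t : ℝ} (h : psi t ≠ 0) : 1 < t := by
  by_contra hcon
  apply h
  unfold psi
  rw [max_eq_left (by linarith), min_eq_right zero_le_one]

theorem psi_one {t : ℝ} (h : 2 ≤ t) : psi t = 1 := by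
  unfold psi
  rw [min_eq_left]
  exact le_trans (by linarith) (le_max_right _ _)

def cut (e : ℝ) (r : ℝ) : ℝ := min 1 (max 0 (2 - 2 * (r / e)))

theorem cut_cont (e : ℝ) : Continuous (cut e) := by unfold cut; fun_prop

theorem cut_nonneg (e t : ℝ) : 0 ≤ cut e t := le_min zero_le_one (le_max_left _ _)

theorem cut_le (e t : ℝ) : cut e t ≤ 1 := min_le_left _ _

theorem cut_ne {e t : ℝ} (he : 0 < e) (h : cut e t ≠ 0) : t < e := by
  by_contra hcon
  apply h
  unfold cut
  have : 1 ≤ t / e := by rw [le_div_iff₀ he]; linarith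
  rw [max_eq_left (by linarith), min_eq_right zero_le_one]

theorem cut_one {e t : ℝ} (he : 0 < e) (h : t ≤ e / 2) : cut e t = 1 := by
  unfold cut
  have : t / e ≤ 1 / 2 := by rw [div_le_iff₀ he]; linarith
  rw [min_eq_left]
  exact le_trans (by linarith) (le_max_right _ _)

/-- the remainder of a sequence after `k` terms -/
def rr (k : ℕ) (v : ℕ → ℝ) : ℝ := 1 - ∑ i ∈ Finset.range k, v i

/-- the smooth cut off -/
def phi (e : ℝ) (k m : ℕ) (v : ℕ → ℝ) : ℝ :=
  (∏ j ∈ Finset.range k, psi (m * v j)) * psi (m * rr k v) * cut e (rr k v)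

theorem phi_nonneg (e : ℝ) (k m : ℕ) (v : ℕ → ℝ) : 0 ≤ phi e k m v :=
  mul_nonneg (mul_nonneg (Finset.prod_nonneg fun _ _ => psi_nonneg _) (psi_nonneg _))
    (cut_nonneg _ _)

theorem phi_le (e : ℝ) (k m : ℕ) (v : ℕ → ℝ) : phi e k m v ≤ 1 :=
  mul_le_one₀ (mul_le_one₀ (Finset.prod_le_one (fun _ _ => psi_nonneg _) fun _ _ => psi_le _)
    (psi_nonneg _) (psi_le _)) (cut_nonneg _ _) (cut_le _ _)

/-- the test function on sequences -/
def GG (g : (ℕ → ℝ) → ℝ) (e : ℝ) (k m : ℕ) (v : ℕ → ℝ) : ℝ :=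
  phi e k m v * g (rank (trunc k v))

theorem abs_GG_le {g : (ℕ → ℝ) → ℝ} (hg0 : ∀ x, 0 ≤ g x) {B : ℝ} (hB : ∀ x, g x ≤ B)
    (e : ℝ) (k m : ℕ) (v : ℕ → ℝ) : ‖GG g e k m v‖ ≤ B := by
  unfold GG
  rw [Real.norm_eq_abs, abs_of_nonneg (mul_nonneg (phi_nonneg _ _ _ _) (hg0 _))]
  exact (mul_le_of_le_one_left (hg0 _) (phi_le _ _ _ _)).trans (hB _)

theorem rr_congr {k : ℕ} {v v' : ℕ → ℝ} (h : ∀ i < k, v i = v' i) : rr k v = rr k v' := by
  unfold rr
  rw [Finset.sum_congr rfl fun i hi => h i (Finset.mem_range.1 hi)]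

theorem trunc_congr {k : ℕ} {v v' : ℕ → ℝ} (h : ∀ i < k, v i = v' i) : trunc k v = trunc k v' := by
  funext i
  unfold trunc
  split_ifs with hi
  · exact h i hi
  · rfl

theorem GG_congr (g : (ℕ → ℝ) → ℝ) (e : ℝ) {k : ℕ} (m : ℕ) {v v' : ℕ → ℝ}
    (h : ∀ i < k, v i = v' i) : GG g e k m v = GG g e k m v' := by
  unfold GG phi
  rw [rr_congr h, trunc_congr h,
    Finset.prod_congr rfl fun i hi => by rw [h i (Finset.mem_range.1 hi)]]

theorem tendsto_rr {k : ℕ} {x : ℕ → ℕ → ℝ} {y : ℕ → ℝ}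
    (h : ∀ i < k, Tendsto (fun n => x n i) atTop (𝓝 (y i))) :
    Tendsto (fun n => rr k (x n)) atTop (𝓝 (rr k y)) := by
  unfold rr
  exact tendsto_const_nhds.sub (tendsto_finsetSum _ fun i hi => h i (Finset.mem_range.1 hi))

theorem tendsto_GG {g : (ℕ → ℝ) → ℝ} (hg : Continuous g) (e : ℝ) {k : ℕ} (m : ℕ)
    {x : ℕ → ℕ → ℝ} {y : ℕ → ℝ}
    (hx : ∀ n, ∀ i < k, x n i ∈ Set.Icc (0 : ℝ) 1) (hy : ∀ i < k, y i ∈ Set.Icc (0 : ℝ) 1)
    (h : ∀ i < k, Tendsto (fun n => x n i) atTop (𝓝 (y i))) :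
    Tendsto (fun n => GG g e k m (x n)) atTop (𝓝 (GG g e k m y)) := by
  unfold GG phi
  refine Tendsto.mul (Tendsto.mul (Tendsto.mul ?_ ?_) ?_) ?_
  · exact tendsto_finsetProd _ fun i hi =>
      (psi_cont.tendsto _).comp ((h i (Finset.mem_range.1 hi)).const_mul _)
  · exact (psi_cont.tendsto _).comp ((tendsto_rr h).const_mul _)
  · exact ((cut_cont e).tendsto _).comp (tendsto_rr h)
  · exact (hg.tendsto _).comp (tendsto_rank_trunc hx hy h)

theorem measurable_rr (k : ℕ) : Measurable (rr k) := by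
  unfold rr
  exact measurable_const.sub (Finset.measurable_fun_sum _ fun i _ => measurable_pi_apply i)

theorem measurable_trunc (k : ℕ) : Measurable (trunc k) := by
  refine measurable_pi_iff.2 fun i => ?_
  unfold trunc
  split_ifs
  · exact measurable_pi_apply i
  · exact measurable_const

theorem measurable_GG {g : (ℕ → ℝ) → ℝ} (hg : Continuous g) (e : ℝ) (k m : ℕ) :
    Measurable (GG g e k m) := by
  unfold GG phi
  refine Measurable.mul (Measurable.mul (Measurable.mul ?_ ?_) ?_) ?_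
  · exact Finset.measurable_fun_prod _ fun i _ =>
      psi_cont.measurable.comp (measurable_const.mul (measurable_pi_apply i))
  · exact psi_cont.measurable.comp (measurable_const.mul (measurable_rr k))
  · exact (cut_cont e).measurable.comp (measurable_rr k)
  · exact hg.measurable.comp (measurable_rank.comp (measurable_trunc k))

theorem rr_stick (k : ℕ) (u : ℕ → ℝ) : rr k (stick u) = remn u k := by
  unfold rr; rw [sum_stick]; ring

/-- integral of the test function against the discrete stick breaking as a finite sum -/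
theorem integral_dst_eq (g : (ℕ → ℝ) → ℝ) (e : ℝ) (he : 0 < e) (k m n : ℕ)
    (hm : 0 < m) (hn : 0 < n) (S : Finset (Fin k → ℕ))
    (hS : ∀ d : Fin k → ℕ, (∀ i, (n : ℝ) / m ≤ d i) → (n : ℝ) / m + ∑ i, (d i : ℝ) ≤ n →
      (n : ℝ) - ∑ i, (d i : ℝ) ≤ e * n → d ∈ S)
    (hS' : ∀ d ∈ S, (∀ i, 1 ≤ d i) ∧ ∑ i, d i ≤ n) :
    ∫ u, GG g e k m (fun i => (dst n u i : ℝ) / n) ∂unifSeq =
      ∑ d ∈ S, qt n d * GG g e k m (seqd n d) := by
  classical
  have hn' : (0 : ℝ) < n := by exact_mod_cast hn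
  have hm' : (0 : ℝ) < m := by exact_mod_cast hm
  have h1 : ∀ u : ℕ → ℝ, GG g e k m (fun i => (dst n u i : ℝ) / n) =
      ∑ d ∈ S, Set.indicator {u : ℕ → ℝ | (fun i : Fin k => dst n u i) = d}
        (fun _ => GG g e k m (seqd n d)) u := by
    intro u
    set D : Fin k → ℕ := fun i => dst n u i with hD
    have h2 : GG g e k m (fun i => (dst n u i : ℝ) / n) = GG g e k m (seqd n D) := by
      refine GG_congr g e m fun i hi => ?_
      simp only [seqd, dif_pos hi, hD]
    have h3 : ∀ d ∈ S, Set.indicator {u : ℕ → ℝ | (fun i : Fin k => dst n u i) = d}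
        (fun _ => GG g e k m (seqd n d)) u = if D = d then GG g e k m (seqd n d) else 0 := by
      intro d _
      rw [Set.indicator_apply]
      rfl
    rw [h2, Finset.sum_congr rfl h3, Finset.sum_ite_eq]
    split_ifs with hDS
    · rfl
    · -- the test function vanishes outside `S`
      by_contra hne
      apply hDS
      have hphi : phi e k m (seqd n D) ≠ 0 := by
        intro h0; apply hne; unfold GG; rw [h0, zero_mul]
      unfold phi at hphi
      have ha := left_ne_zero_of_mul (left_ne_zero_of_mul hphi)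
      have hb := right_ne_zero_of_mul (left_ne_zero_of_mul hphi)
      have hc := right_ne_zero_of_mul hphi
      rw [Finset.prod_ne_zero_iff] at ha
      have hrr : rr k (seqd n D) = 1 - (∑ i, (D i : ℝ)) / n := by
        unfold rr
        rw [Finset.sum_range, Finset.sum_div]
        congr 1
        refine Finset.sum_congr rfl fun i _ => ?_
        simp only [seqd, dif_pos i.2]
      refine hS D (fun i => ?_) ?_ ?_
      · have h4 := psi_ne (ha i (Finset.mem_range.2 i.2))
        simp only [seqd, dif_pos i.2] at h4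
        rw [div_le_iff₀ hm']
        rw [← mul_div_assoc, lt_div_iff₀ hn'] at h4
        have h5 : (D ⟨(i : ℕ), i.2⟩ : ℝ) = D i := rfl
        rw [h5] at h4
        linarith
      · have h4 := psi_ne hb
        rw [hrr, mul_sub, mul_one, ← mul_div_assoc, lt_sub_iff_add_lt, ← lt_sub_iff_add_lt',
          div_lt_iff₀ hn'] at h4
        rw [← le_sub_iff_add_le, div_le_iff₀ hm']
        nlinarith
      · have h4 := cut_ne he hc
        rw [hrr, sub_lt_comm, lt_div_iff₀ hn'] at h4
        linarith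
  have h2 : ∀ d ∈ S, MeasurableSet {u : ℕ → ℝ | (fun i : Fin k => dst n u i) = d} := by
    intro d _
    have : Measurable (fun u : ℕ → ℝ => (fun i : Fin k => dst n u i)) :=
      measurable_pi_iff.2 fun i => measurable_dst n i
    exact this (measurableSet_singleton d)
  simp_rw [h1]
  rw [integral_finsetSum]
  · refine Finset.sum_congr rfl fun d hd => ?_
    rw [integral_indicator (h2 d hd), setIntegral_const, smul_eq_mul,
      law_dst d (hS' d hd).1 (hS' d hd).2]
  · intro d hd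
    exact (integrable_const _).indicator (h2 d hd)

/-- the tuples used -/
def SS (e e1 : ℝ) (k n : ℕ) : Finset (Fin k → ℕ) := by
  classical
  exact (Fintype.piFinset (fun _ : Fin k => Finset.range (n + 1))).filter fun d =>
    (∀ i, 1 ≤ d i) ∧ ∑ i, d i ≤ n ∧ (∀ i, e1 * n ≤ d i) ∧ e1 * n + ∑ i, (d i : ℝ) ≤ n ∧
      (n : ℝ) - ∑ i, (d i : ℝ) ≤ e * n

theorem mem_SS {e e1 : ℝ} {k n : ℕ} {d : Fin k → ℕ} (h : d ∈ SS e e1 k n) :
    (∀ i, 1 ≤ d i) ∧ ∑ i, d i ≤ n ∧ (∀ i, e1 * n ≤ d i) ∧ e1 * n + ∑ i, (d i : ℝ) ≤ n ∧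
      (n : ℝ) - ∑ i, (d i : ℝ) ≤ e * n := by
  classical
  exact (Finset.mem_filter.1 h).2

theorem in_SS {e e1 : ℝ} (he1 : 0 < e1) {k n : ℕ} (hn : 0 < n) {d : Fin k → ℕ}
    (h1 : ∀ i, e1 * n ≤ d i) (h2 : e1 * n + ∑ i, (d i : ℝ) ≤ n)
    (h3 : (n : ℝ) - ∑ i, (d i : ℝ) ≤ e * n) : d ∈ SS e e1 k n := by
  classical
  have hn' : (0 : ℝ) < n := by exact_mod_cast hn
  have h4 : ∑ i, d i ≤ n := by
    have : ((∑ i, d i : ℕ) : ℝ) ≤ n := by
      push_cast
      have : 0 < e1 * n := by positivity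
      linarith
    exact_mod_cast this
  refine Finset.mem_filter.2 ⟨Fintype.mem_piFinset.2 fun i => ?_, fun i => ?_, h4, h1, h2, h3⟩
  · have : d i ≤ ∑ i, d i := Finset.single_le_sum (fun _ _ => Nat.zero_le _) (Finset.mem_univ i)
    rw [Finset.mem_range]; omega
  · have h5 : (0 : ℝ) < d i := lt_of_lt_of_le (by positivity) (h1 i)
    exact_mod_cast h5

theorem qt_nonneg {k n : ℕ} {d : Fin k → ℕ} (h : ∑ i, d i ≤ n) : 0 ≤ qt n d := by
  unfold qt
  refine Finset.prod_nonneg fun i _ => ?_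
  have h1 : psum d i ≤ n := ((psum_mono d i.2.le).trans (psum_last d).le).trans h
  have : (psum d i : ℝ) ≤ n := by exact_mod_cast h1
  exact one_div_nonneg.2 (by linarith)

theorem seqd_mem {k n : ℕ} {d : Fin k → ℕ} (h : ∑ i, d i ≤ n) (i : ℕ) :
    seqd n d i ∈ Set.Icc (0 : ℝ) 1 := by
  unfold seqd
  split_ifs with hi
  · refine ⟨by positivity, div_le_one_of_le₀ ?_ (Nat.cast_nonneg _)⟩
    have : d ⟨i, hi⟩ ≤ ∑ i, d i :=
      Finset.single_le_sum (fun _ _ => Nat.zero_le _) (Finset.mem_univ _)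
    exact_mod_cast this.trans h
  · simp

theorem trunc_seqd {k n : ℕ} (d : Fin k → ℕ) : trunc k (seqd n d) = seqd n d := by
  funext i
  unfold trunc
  split_ifs with hi
  · rfl
  · simp [seqd, hi]

/-- the one sided estimate for a fixed polynomial -/
theorem single_lower {F : Type} [Field F] [DecidableEq F] {f : F[X]} (hf : f ≠ 0)
    (hfn : 0 < f.natDegree) {g : (ℕ → ℝ) → ℝ} (hg0 : ∀ x, 0 ≤ g x) {δ ω : ℝ} (hω : 0 ≤ ω)
    (hδ : ∀ x y : ℕ → ℝ, (∀ j, x j ∈ Set.Icc (0 : ℝ) 1) →
      (∀ j, y j ∈ Set.Icc (0 : ℝ) 1) → (∀ j, |x j - y j| ≤ δ) → |g x - g y| ≤ ω)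
    {e e1 : ℝ} (hed : e ≤ δ) (k m : ℕ) :
    ∑ d ∈ SS e e1 k f.natDegree, ((tup f d).ncard : ℝ) * wt f.natDegree d *
        GG g e k m (seqd f.natDegree d) - ω ≤ g (degSeq f) := by
  set n := f.natDegree with hn
  have hn' : (0 : ℝ) < n := by exact_mod_cast hfn
  have hwt : ∀ d ∈ SS e e1 k n, 0 ≤ wt n d := fun d hd =>
    mul_nonneg (Finset.prod_nonneg fun _ _ => Nat.cast_nonneg _) (qt_nonneg (mem_SS hd).2.1)
  have hmass := mass_le hf (SS e e1 k n)
  have h1 : ∀ d ∈ SS e e1 k n, ((tup f d).ncard : ℝ) * wt n d * GG g e k m (seqd n d) ≤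
      ((tup f d).ncard : ℝ) * wt n d * (g (degSeq f) + ω) := by
    intro d hd
    have hc : 0 ≤ ((tup f d).ncard : ℝ) * wt n d := mul_nonneg (Nat.cast_nonneg _) (hwt d hd)
    rcases Set.eq_empty_or_nonempty (tup f d) with h0 | h0
    · rw [h0]; simp
    · refine mul_le_mul_of_nonneg_left ?_ hc
      obtain ⟨-, hS2, -, -, hS5⟩ := mem_SS hd
      have h2 : |g (degSeq f) - g (rank (seqd n d))| ≤ ω := by
        refine hδ _ _ (fun j => degSeq_mem j) (fun j =>
          ⟨rank_nonneg (fun i => (seqd_mem hS2 i).1) (fun i => (seqd_mem hS2 i).2),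
            rank_le (fun i => (seqd_mem hS2 i).1) (fun i => (seqd_mem hS2 i).2)⟩) fun j => ?_
        rcases abs_degSeq_sub_le hf h0 j with h | h
        · refine h.trans (le_trans ?_ hed)
          rw [← hn]
          have h3 : ((n : ℝ) - ∑ i, (d i : ℝ)) / n ≤ e := by
            rw [div_le_iff₀ hn']; exact hS5
          rw [sub_div, div_self hn'.ne'] at h3
          exact h3
        · omega
      have h3 : GG g e k m (seqd n d) ≤ g (rank (seqd n d)) := by
        unfold GG
        rw [trunc_seqd]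
        exact mul_le_of_le_one_left (hg0 _) (phi_le _ _ _ _)
      have := (abs_le.1 h2).1
      linarith
  have h2 := Finset.sum_le_sum h1
  rw [← Finset.sum_mul] at h2
  have h3 : (∑ d ∈ SS e e1 k n, ((tup f d).ncard : ℝ) * wt n d) * (g (degSeq f) + ω) ≤
      1 * (g (degSeq f) + ω) :=
    mul_le_mul_of_nonneg_right hmass (add_nonneg (hg0 _) hω)
  linarith

/-- comparison of the cut off integral with the Poisson-Dirichlet integral -/
theorem cut_lower {g : (ℕ → ℝ) → ℝ} (hg : Continuous g) (hg0 : ∀ x, 0 ≤ g x) {B : ℝ}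
    (hB : ∀ x, g x ≤ B) {δ ω : ℝ} (hω : 0 ≤ ω)
    (hδ : ∀ x y : ℕ → ℝ, (∀ j, x j ∈ Set.Icc (0 : ℝ) 1) →
      (∀ j, y j ∈ Set.Icc (0 : ℝ) 1) → (∀ j, |x j - y j| ≤ δ) → |g x - g y| ≤ ω)
    {e : ℝ} (he : 0 < e) (hed : e ≤ δ) (k : ℕ) :
    ∫ u, g (rank (stick u)) ∂unifSeq - ω - B * (2 / e) * (1 / 2) ^ k ≤
      ∫ u, cut e (remn u k) * g (rank (trunc k (stick u))) ∂unifSeq := by
  have hB0 : 0 ≤ B := (hg0 0).trans (hB 0)
  have hm1 : Measurable (fun u : ℕ → ℝ => g (rank (stick u))) :=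
    hg.measurable.comp (measurable_rank.comp measurable_stick')
  have hm2 : Measurable (fun u : ℕ → ℝ => cut e (remn u k) * g (rank (trunc k (stick u)))) :=
    ((cut_cont e).measurable.comp (measurable_remn k)).mul
      (hg.measurable.comp (measurable_rank.comp ((measurable_trunc k).comp measurable_stick')))
  have hint1 : Integrable (fun u : ℕ → ℝ => g (rank (stick u))) unifSeq :=
    Integrable.of_bound hm1.aestronglyMeasurable B (ae_of_all _ fun u => by
      rw [Real.norm_eq_abs, abs_of_nonneg (hg0 _)]; exact hB _)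
  have hint2 : Integrable (fun u : ℕ → ℝ => cut e (remn u k) * g (rank (trunc k (stick u))))
      unifSeq :=
    Integrable.of_bound hm2.aestronglyMeasurable B (ae_of_all _ fun u => by
      rw [Real.norm_eq_abs, abs_of_nonneg (mul_nonneg (cut_nonneg _ _) (hg0 _))]
      exact (mul_le_of_le_one_left (hg0 _) (cut_le _ _)).trans (hB _))
  have hint3 : Integrable (fun u : ℕ → ℝ => remn u k) unifSeq := by
    refine Integrable.of_bound (measurable_remn k).aestronglyMeasurable 1 ?_
    filter_upwards [ae_unifSeq] with u hu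
    have := remn_mem (fun i => Set.Ioo_subset_Icc_self (hu i)) k
    rw [Real.norm_eq_abs, abs_of_nonneg this.1]; exact this.2
  have h1 : ∀ᵐ u ∂unifSeq, g (rank (stick u)) - ω - B * (2 / e) * remn u k ≤
      cut e (remn u k) * g (rank (trunc k (stick u))) := by
    filter_upwards [ae_unifSeq] with u hu
    have hu' : ∀ i, u i ∈ Set.Icc (0 : ℝ) 1 := fun i => Set.Ioo_subset_Icc_self (hu i)
    have hR := remn_mem hu' k
    have hsm := fun i => stick_mem hu' i
    have htm := fun i => trunc_mem (k := k) (v := stick u) (fun i _ => hsm i) i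
    rcases le_or_gt (remn u k) (e / 2) with hr | hr
    · rw [cut_one he hr, one_mul]
      have h2 : |g (rank (trunc k (stick u))) - g (rank (stick u))| ≤ ω := by
        refine hδ _ _ (fun j =>
          ⟨rank_nonneg (fun i => (htm i).1) (fun i => (htm i).2),
            rank_le (fun i => (htm i).1) (fun i => (htm i).2)⟩) (fun j =>
          ⟨rank_nonneg (fun i => (hsm i).1) (fun i => (hsm i).2),
            rank_le (fun i => (hsm i).1) (fun i => (hsm i).2)⟩) fun j => ?_
        exact (abs_rank_stick_sub hu' k j).trans (by linarith)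
      have h3 := (abs_le.1 h2).1
      have h4 : 0 ≤ B * (2 / e) * remn u k := mul_nonneg (by positivity) hR.1
      linarith
    · have h2 : B ≤ B * (2 / e) * remn u k := by
        have : 1 ≤ 2 / e * remn u k := by
          rw [div_mul_eq_mul_div, le_div_iff₀ he]; linarith
        rw [mul_assoc]
        exact le_mul_of_one_le_right hB0 this
      have h3 : 0 ≤ cut e (remn u k) * g (rank (trunc k (stick u))) :=
        mul_nonneg (cut_nonneg _ _) (hg0 _)
      have := hB (rank (stick u))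
      linarith
  have hint12 : Integrable (fun u : ℕ → ℝ => g (rank (stick u)) - ω) unifSeq :=
    hint1.sub (integrable_const ω)
  have hint3' : Integrable (fun u : ℕ → ℝ => B * (2 / e) * remn u k) unifSeq :=
    hint3.const_mul _
  have h2 := integral_mono_ae (hint12.sub hint3') hint2 h1
  have h3 : ∫ u, (g (rank (stick u)) - ω - B * (2 / e) * remn u k) ∂unifSeq =
      ∫ u, g (rank (stick u)) ∂unifSeq - ω - B * (2 / e) * (1 / 2) ^ k := by
    rw [integral_sub hint12 hint3', integral_sub hint1 (integrable_const ω), integral_const_mul,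
      integral_remn]
    simp
  rw [← h3]
  exact h2

/-- the one sided limit inequality -/
theorem lower_bound {F : Type} [Field F] [DecidableEq F]
    (Om : ℕ → Type) [∀ n, Fintype (Om n)] (w : ∀ n, Om n → ℝ) (f : ∀ n, Om n → F[X])
    (hw0 : ∀ n o, 0 ≤ w n o) (hw1 : ∀ n, ∑ o, w n o = 1)
    (hf : ∀ n o, f n o ≠ 0 ∧ (f n o).natDegree = n) (e' : ℝ) (he' : 0 < e')
    (H : ∀ k : ℕ, 0 < k → ∀ e1 : ℝ, 0 < e1 → ∀ eta : ℝ, 0 < eta → ∀ᶠ n : ℕ in atTop,
      ∀ d : Fin k → ℕ, (∀ i, e1 * n ≤ d i) → e1 * n + ∑ i, (d i : ℝ) ≤ n →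
        (n : ℝ) - ∑ i, (d i : ℝ) ≤ e' * n →
        1 - eta ≤ (∏ i, (d i : ℝ)) * ∑ o, w n o * ((tup (f n o) d).ncard : ℝ))
    {g : (ℕ → ℝ) → ℝ} (hg : Continuous g) (hg0 : ∀ x, 0 ≤ g x) {B : ℝ} (hB : ∀ x, g x ≤ B)
    {ε : ℝ} (hε : 0 < ε) :
    ∀ᶠ n : ℕ in atTop, ∫ u, g (rank (stick u)) ∂unifSeq - ε ≤ ∑ o, w n o * g (degSeq (f n o)) := by
  have hB0 : 0 ≤ B := (hg0 0).trans (hB 0)
  -- parameters
  set ω : ℝ := ε / 6 with hωdef
  have hω : 0 < ω := by positivity
  obtain ⟨δ, hδ0, hδ⟩ := exists_delta hg hω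
  set e : ℝ := min e' δ with hedef
  have he : 0 < e := lt_min he' hδ0
  have hed : e ≤ δ := min_le_right _ _
  obtain ⟨k0, hk0⟩ : ∃ k0 : ℕ, ∀ k ≥ k0, B * (2 / e) * (1 / 2 : ℝ) ^ k ≤ ω := by
    have h1 : Tendsto (fun k : ℕ => B * (2 / e) * (1 / 2 : ℝ) ^ k) atTop (𝓝 0) := by
      have := (tendsto_pow_atTop_nhds_zero_of_lt_one (by norm_num : (0 : ℝ) ≤ 1 / 2)
        (by norm_num)).const_mul (B * (2 / e))
      rwa [mul_zero] at this
    obtain ⟨k0, hk0⟩ := eventually_atTop.1 (h1.eventually (ge_mem_nhds hω))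
    exact ⟨k0, hk0⟩
  set k : ℕ := k0 + 1 with hkdef
  have hk := hk0 k (by omega)
  have hcut := cut_lower hg hg0 hB hω.le hδ he hed k
  -- choice of `m`
  have hm_lim : Tendsto (fun m : ℕ => ∫ u, GG g e k m (stick u) ∂unifSeq) atTop
      (𝓝 (∫ u, cut e (remn u k) * g (rank (trunc k (stick u))) ∂unifSeq)) := by
    refine tendsto_integral_of_dominated_convergence (fun _ => B) (fun m =>
      ((measurable_GG hg e k m).comp measurable_stick').aestronglyMeasurable)
      (integrable_const _) (fun m => ae_of_all _ fun u => ?_) ?_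
    · exact abs_GG_le hg0 hB _ _ _ _
    · filter_upwards [ae_unifSeq] with u hu
      have hpos : ∀ x : ℝ, 0 < x → ∀ᶠ m : ℕ in atTop, psi (m * x) = 1 := by
        intro x hx
        obtain ⟨m0, hm0⟩ := exists_nat_ge (2 / x)
        filter_upwards [eventually_ge_atTop m0] with m hm
        apply psi_one
        rw [div_le_iff₀ hx] at hm0
        have : (m0 : ℝ) ≤ m := by exact_mod_cast hm
        nlinarith
      have h1 : ∀ᶠ m : ℕ in atTop, ∀ j ∈ Finset.range k, psi (m * stick u j) = 1 := by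
        rw [Filter.eventually_all_finset]
        intro j _
        exact hpos _ (mul_pos (hu j).1 (remn_pos hu j))
      refine tendsto_const_nhds.congr' ?_
      filter_upwards [h1, hpos _ (remn_pos hu k)] with m hm1 hm2
      unfold GG phi
      rw [rr_stick, hm2, Finset.prod_congr rfl hm1]
      simp
  obtain ⟨m, hm0, hm⟩ : ∃ m : ℕ, 0 < m ∧
      ∫ u, cut e (remn u k) * g (rank (trunc k (stick u))) ∂unifSeq - ω ≤
        ∫ u, GG g e k m (stick u) ∂unifSeq := by
    have h1 := hm_lim.eventually (le_mem_nhds (show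
      ∫ u, cut e (remn u k) * g (rank (trunc k (stick u))) ∂unifSeq - ω <
        ∫ u, cut e (remn u k) * g (rank (trunc k (stick u))) ∂unifSeq by linarith))
    obtain ⟨m, hm⟩ := ((eventually_gt_atTop 0).and h1).exists
    exact ⟨m, hm.1, hm.2⟩
  -- the discrete stick breaking
  have hn_lim : Tendsto (fun n : ℕ => ∫ u, GG g e k m (fun i => (dst n u i : ℝ) / n) ∂unifSeq) atTop
      (𝓝 (∫ u, GG g e k m (stick u) ∂unifSeq)) := by
    have hmeas : ∀ n : ℕ, Measurable (fun (u : ℕ → ℝ) (i : ℕ) => (dst n u i : ℝ) / n) := fun n =>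
      measurable_pi_iff.2 fun i => (measurable_from_top.comp (measurable_dst n i)).div_const _
    refine tendsto_integral_of_dominated_convergence (fun _ => B) (fun n =>
      ((measurable_GG hg e k m).comp (hmeas n)).aestronglyMeasurable)
      (integrable_const _) (fun m => ae_of_all _ fun u => ?_) ?_
    · exact abs_GG_le hg0 hB _ _ _ _
    · filter_upwards [ae_unifSeq] with u hu
      have hu' : ∀ i, u i ∈ Set.Icc (0 : ℝ) 1 := fun i => Set.Ioo_subset_Icc_self (hu i)
      refine tendsto_GG hg e m (fun n i _ => ⟨by positivity, ?_⟩) (fun i _ => stick_mem hu' i)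
        fun i _ => (tendsto_drem hu' i).2
      refine div_le_one_of_le₀ ?_ (Nat.cast_nonneg _)
      have h1 := sum_dst (n := n) hu' (i + 1)
      rw [Finset.sum_range_succ] at h1
      exact_mod_cast (by omega : dst n u i ≤ n)
  set eta : ℝ := min 1 (ω / (B + 1)) with hetadef
  have heta0 : 0 < eta := lt_min one_pos (by positivity)
  have heta1 : eta ≤ 1 := min_le_left _ _
  have hetaB : eta * B ≤ ω := by
    have h1 : eta ≤ ω / (B + 1) := min_le_right _ _
    have h2 : eta * (B + 1) ≤ ω := by rwa [le_div_iff₀ (by linarith)] at h1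
    nlinarith
  have hm1 : (0 : ℝ) < 1 / m := by positivity
  have hHk := H k (by omega) (1 / m) hm1 eta heta0
  filter_upwards [hHk, hn_lim.eventually (le_mem_nhds (show
      ∫ u, GG g e k m (stick u) ∂unifSeq - ω < ∫ u, GG g e k m (stick u) ∂unifSeq by linarith)),
      eventually_gt_atTop 0] with n hn1 hn2 hn3
  have hsum := integral_dst_eq g e he k m n hm0 hn3 (SS e (1 / m) k n)
    (fun d h1 h2 h3 => in_SS hm1 hn3
      (fun i => by have := h1 i; rwa [div_eq_mul_one_div, mul_comm] at this)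
      (by rwa [div_eq_mul_one_div, mul_comm] at h2) h3)
    (fun d hd => ⟨(mem_SS hd).1, (mem_SS hd).2.1⟩)
  -- nonnegativity
  have hGG0 : ∀ v, 0 ≤ GG g e k m v := fun v => mul_nonneg (phi_nonneg _ _ _ _) (hg0 _)
  have hGGB : ∀ v, GG g e k m v ≤ B := fun v =>
    (mul_le_of_le_one_left (hg0 _) (phi_le _ _ _ _)).trans (hB _)
  have hI0 : 0 ≤ ∫ u, GG g e k m (fun i => (dst n u i : ℝ) / n) ∂unifSeq :=
    integral_nonneg fun u => hGG0 _
  have hIB : ∫ u, GG g e k m (fun i => (dst n u i : ℝ) / n) ∂unifSeq ≤ B := by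
    have h1 : ∫ u, GG g e k m (fun i => (dst n u i : ℝ) / n) ∂unifSeq ≤ ∫ _u, B ∂unifSeq := by
      refine integral_mono_of_nonneg (ae_of_all _ fun u => hGG0 _) (integrable_const _)
        (ae_of_all _ fun u => hGGB _)
    simpa using h1
  -- pointwise lower bound and averaging
  have h1 : ∀ o, ∑ d ∈ SS e (1 / m) k n, ((tup (f n o) d).ncard : ℝ) * wt n d *
        GG g e k m (seqd n d) - ω ≤ g (degSeq (f n o)) := by
    intro o
    have h2 := single_lower (e1 := 1 / m) (hf n o).1 (by rw [(hf n o).2]; exact hn3) hg0 hω.le hδ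
      hed k m
    rwa [(hf n o).2] at h2
  have h2 : ∑ o, w n o * (∑ d ∈ SS e (1 / m) k n, ((tup (f n o) d).ncard : ℝ) * wt n d *
        GG g e k m (seqd n d) - ω) ≤ ∑ o, w n o * g (degSeq (f n o)) :=
    Finset.sum_le_sum fun o _ => mul_le_mul_of_nonneg_left (h1 o) (hw0 n o)
  have h3 : ∑ o, w n o * (∑ d ∈ SS e (1 / m) k n, ((tup (f n o) d).ncard : ℝ) * wt n d *
        GG g e k m (seqd n d) - ω) =
      ∑ d ∈ SS e (1 / m) k n, ((∏ i, (d i : ℝ)) * ∑ o, w n o * ((tup (f n o) d).ncard : ℝ)) *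
        (qt n d * GG g e k m (seqd n d)) - ω := by
    simp_rw [mul_sub]
    rw [Finset.sum_sub_distrib, ← Finset.sum_mul, hw1, one_mul]
    congr 1
    simp_rw [Finset.mul_sum]
    rw [Finset.sum_comm]
    refine Finset.sum_congr rfl fun d _ => ?_
    rw [Finset.sum_mul]
    refine Finset.sum_congr rfl fun o _ => ?_
    unfold wt
    ring
  have h4 : (1 - eta) * ∑ d ∈ SS e (1 / m) k n, qt n d * GG g e k m (seqd n d) ≤
      ∑ d ∈ SS e (1 / m) k n, ((∏ i, (d i : ℝ)) * ∑ o, w n o * ((tup (f n o) d).ncard : ℝ)) *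
        (qt n d * GG g e k m (seqd n d)) := by
    rw [Finset.mul_sum]
    refine Finset.sum_le_sum fun d hd => ?_
    obtain ⟨-, hS2, hS3, hS4, hS5⟩ := mem_SS hd
    refine mul_le_mul_of_nonneg_right (hn1 d hS3 hS4 (hS5.trans ?_))
      (mul_nonneg (qt_nonneg hS2) (hGG0 _))
    exact mul_le_mul_of_nonneg_right (min_le_left _ _) (Nat.cast_nonneg _)
  rw [← hsum] at h4
  rw [h3] at h2
  have h5 : eta * ∫ u, GG g e k m (fun i => (dst n u i : ℝ) / n) ∂unifSeq ≤ ω :=
    (mul_le_mul_of_nonneg_left hIB heta0.le).trans hetaB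
  have h6 : ε = 6 * ω := by rw [hωdef]; ring
  linarith

/-- **Limit step.** From a lower bound for the correlations of tuples of prime divisors to the
Poisson-Dirichlet limit law. -/
theorem pd_of_tuples {F : Type} [Field F] [DecidableEq F]
    (Om : ℕ → Type) [∀ n, Fintype (Om n)] (w : ∀ n, Om n → ℝ) (f : ∀ n, Om n → F[X])
    (hw0 : ∀ n o, 0 ≤ w n o) (hw1 : ∀ n, ∑ o, w n o = 1)
    (hf : ∀ n o, f n o ≠ 0 ∧ (f n o).natDegree = n) (e' : ℝ) (he' : 0 < e')
    (H : ∀ k : ℕ, 0 < k → ∀ e1 : ℝ, 0 < e1 → ∀ eta : ℝ, 0 < eta → ∀ᶠ n : ℕ in atTop,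
      ∀ d : Fin k → ℕ, (∀ i, e1 * n ≤ d i) → e1 * n + ∑ i, (d i : ℝ) ≤ n →
        (n : ℝ) - ∑ i, (d i : ℝ) ≤ e' * n →
        1 - eta ≤ (∏ i, (d i : ℝ)) * ∑ o, w n o * ((tup (f n o) d).ncard : ℝ))
    (g : BoundedContinuousFunction (ℕ → ℝ) ℝ) :
    Tendsto (fun n => ∑ o, w n o * g (degSeq (f n o))) atTop (𝓝 (∫ x, g x ∂PDlaw)) := by
  have hint : Integrable (fun u : ℕ → ℝ => g (rank (stick u))) unifSeq :=
    Integrable.of_bound (g.continuous.measurable.comp
      (measurable_rank.comp measurable_stick')).aestronglyMeasurable ‖g‖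
      (ae_of_all _ fun u => g.norm_coe_le_norm _)
  have hPD : ∫ x, g x ∂PDlaw = ∫ u, g (rank (stick u)) ∂unifSeq := by
    have hm : Measurable (fun u : ℕ → ℝ => rank (stick u)) :=
      measurable_rank.comp measurable_stick'
    unfold PDlaw
    rw [integral_map hm.aemeasurable g.continuous.measurable.aestronglyMeasurable]
  rw [hPD, tendsto_order]
  have habs : ∀ x, |g x| ≤ ‖g‖ := fun x => g.norm_coe_le_norm x
  constructor
  · intro a ha
    have h1 := lower_bound Om w f hw0 hw1 hf e' he' H (g := fun x => g x + ‖g‖)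
      (g.continuous.add continuous_const)
      (fun x => by have := (abs_le.1 (habs x)).1; linarith)
      (B := 2 * ‖g‖) (fun x => by have := (abs_le.1 (habs x)).2; linarith)
      (ε := (∫ u, g (rank (stick u)) ∂unifSeq - a) / 2) (by linarith)
    filter_upwards [h1] with n hn
    rw [integral_add hint (integrable_const _)] at hn
    simp only [mul_add, Finset.sum_add_distrib, ← Finset.sum_mul, hw1, one_mul] at hn
    simp only [integral_const, probReal_univ, smul_eq_mul, one_mul] at hn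
    linarith
  · intro a ha
    have h1 := lower_bound Om w f hw0 hw1 hf e' he' H (g := fun x => ‖g‖ - g x)
      (continuous_const.sub g.continuous)
      (fun x => by have := (abs_le.1 (habs x)).2; linarith)
      (B := 2 * ‖g‖) (fun x => by have := (abs_le.1 (habs x)).1; linarith)
      (ε := (a - ∫ u, g (rank (stick u)) ∂unifSeq) / 2) (by linarith)
    filter_upwards [h1] with n hn
    rw [integral_sub (integrable_const _) hint] at hn
    simp only [mul_sub, Finset.sum_sub_distrib, ← Finset.sum_mul, hw1, one_mul] at hn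
    simp only [integral_const, probReal_univ, smul_eq_mul, one_mul] at hn
    linarith

end

end MP6cc1fa
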