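import Pool.Agent.Lib.MP_6cc1fa_pr.PD.Defs

/-! MP_6cc1fa_pr: elementary properties of `rank` (helper60). -/

open MeasureTheory Polynomial Filter Topology

namespace MP6cc1fa

theorem rankSet_zero_mem {v : ℕ → ℝ} {k : ℕ} {t : ℝ} (ht : ∀ i, t ≤ v i) :
    t ∈ {t : ℝ | ∃ s : Finset ℕ, s.card = k + 1 ∧ ∀ i ∈ s, t ≤ v i} :=
  ⟨Finset.range (k + 1), by simp, fun i _ => ht i⟩

theorem rankSet_le {v : ℕ → ℝ} {k : ℕ} {B : ℝ} (hB : ∀ i, v i ≤ B) {t : ℝ}
    (ht : ∃ s : Finset ℕ, s.card = k + 1 ∧ ∀ i ∈ s, t ≤ v i) : t ≤ B := by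
  obtain ⟨s, hs, h⟩ := ht
  obtain ⟨i, hi⟩ : s.Nonempty := by
    rw [← Finset.card_pos, hs]; exact Nat.succ_pos k
  exact (h i hi).trans (hB i)

theorem rankSet_bdd {v : ℕ → ℝ} {k : ℕ} {B : ℝ} (hB : ∀ i, v i ≤ B) :
    BddAbove {t : ℝ | ∃ s : Finset ℕ, s.card = k + 1 ∧ ∀ i ∈ s, t ≤ v i} :=
  ⟨B, fun _ ht => rankSet_le hB ht⟩

theorem rank_nonneg {v : ℕ → ℝ} {k : ℕ} {B : ℝ} (h0 : ∀ i, 0 ≤ v i) (hB : ∀ i, v i ≤ B) :
    0 ≤ rank v k := le_csSup (rankSet_bdd hB) (rankSet_zero_mem h0)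

theorem rank_le {v : ℕ → ℝ} {k : ℕ} {B : ℝ} (h0 : ∀ i, 0 ≤ v i) (hB : ∀ i, v i ≤ B) :
    rank v k ≤ B := csSup_le ⟨0, rankSet_zero_mem h0⟩ fun _ ht => rankSet_le hB ht

theorem rank_le_add {v v' : ℕ → ℝ} {k : ℕ} {B δ : ℝ} (h0 : ∀ i, 0 ≤ v i) (hB : ∀ i, v' i ≤ B)
    (h : ∀ i, v i ≤ v' i + δ) : rank v k ≤ rank v' k + δ := by
  refine csSup_le ⟨0, rankSet_zero_mem h0⟩ fun t ht => ?_
  obtain ⟨s, hs, hst⟩ := ht
  have : t - δ ≤ rank v' k :=
    le_csSup (rankSet_bdd hB) ⟨s, hs, fun i hi => by linarith [hst i hi, h i]⟩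
  linarith

theorem abs_rank_sub_le {v v' : ℕ → ℝ} {k : ℕ} {B δ : ℝ} (h0 : ∀ i, 0 ≤ v i) (h0' : ∀ i, 0 ≤ v' i)
    (hB : ∀ i, v i ≤ B) (hB' : ∀ i, v' i ≤ B) (h : ∀ i, |v i - v' i| ≤ δ) :
    |rank v k - rank v' k| ≤ δ := by
  have h1 := rank_le_add (k := k) h0 hB' (fun i => by linarith [(abs_le.1 (h i)).2])
  have h2 := rank_le_add (k := k) h0' hB (fun i => by linarith [(abs_le.1 (h i)).1])
  rw [abs_le]; constructor <;> linarith

theorem rank_antitone_eq {v : ℕ → ℝ} (hv : Antitone v) (h0 : ∀ i, 0 ≤ v i) (k : ℕ) :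
    rank v k = v k := by
  refine le_antisymm (csSup_le ⟨0, rankSet_zero_mem h0⟩ fun t ht => ?_)
    (le_csSup (rankSet_bdd fun i => hv (Nat.zero_le i)) ⟨Finset.range (k + 1), by simp, ?_⟩)
  · obtain ⟨s, hs, hst⟩ := ht
    obtain ⟨i, hi, hik⟩ : ∃ i ∈ s, k ≤ i := by
      by_contra hcon
      push Not at hcon
      have : s ⊆ Finset.range k := fun i hi => Finset.mem_range.2 (hcon i hi)
      have := Finset.card_le_card this
      simp at this
      omega
    exact (hst i hi).trans (hv hik)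
  · intro i hi
    exact hv (by simpa using Nat.lt_succ_iff.1 (Finset.mem_range.1 hi))

theorem rank_congr {v v' : ℕ → ℝ} {k : ℕ} (h0 : ∀ i, 0 ≤ v i) (h0' : ∀ i, 0 ≤ v' i)
    (h : ∀ t : ℝ, 0 < t → {i | t ≤ v i}.encard = {i | t ≤ v' i}.encard) :
    rank v k = rank v' k := by
  have key : ∀ (v : ℕ → ℝ) (t : ℝ), (∃ s : Finset ℕ, s.card = k + 1 ∧ ∀ i ∈ s, t ≤ v i) ↔
      ((k + 1 : ℕ) : ℕ∞) ≤ {i | t ≤ v i}.encard := by
    intro v t
    constructor
    · rintro ⟨s, hs, hst⟩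
      rw [← hs, ← Set.encard_coe_eq_coe_finsetCard]
      exact Set.encard_le_encard fun i hi => hst i (by simpa using hi)
    · intro h
      obtain ⟨u, hu, hcu⟩ := Set.exists_subset_encard_eq h
      have hfin : u.Finite := Set.finite_of_encard_eq_coe hcu
      refine ⟨hfin.toFinset, ?_, fun i hi => hu (by simpa using hi)⟩
      have : (hfin.toFinset.card : ℕ∞) = ((k + 1 : ℕ) : ℕ∞) := by
        rw [← Set.encard_coe_eq_coe_finsetCard, Set.Finite.coe_toFinset, hcu]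
      exact_mod_cast this
  unfold rank
  congr 1
  ext t
  rcases le_or_gt t 0 with ht | ht
  · exact ⟨fun _ => rankSet_zero_mem fun i => ht.trans (h0' i),
      fun _ => rankSet_zero_mem fun i => ht.trans (h0 i)⟩
  · exact (key v t).trans ((by rw [h t ht]) : _ ↔ _) |>.trans (key v' t).symm

theorem encard_getD (l : List ℝ) (t : ℝ) (ht : 0 < t) :
    {i : ℕ | t ≤ l.getD i 0}.encard = (l.countP (fun x => decide (t ≤ x)) : ℕ∞) := by
  induction l with
  | nil =>
    have : {i : ℕ | t ≤ ([] : List ℝ).getD i 0} = ∅ := by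
      ext i; simp [ht]
    rw [this]; simp
  | cons x l ih =>
    have h1 : {i : ℕ | t ≤ (x :: l).getD i 0} =
        (if t ≤ x then ({0} : Set ℕ) else ∅) ∪ Nat.succ '' {i : ℕ | t ≤ l.getD i 0} := by
      ext i
      cases i with
      | zero =>
        by_cases h : t ≤ x
        · simp [h]
        · simp [h]
      | succ i =>
        by_cases h : t ≤ x
        · simp [h]
        · simp [h]
    have hdis : Disjoint (if t ≤ x then ({0} : Set ℕ) else ∅)
        (Nat.succ '' {i : ℕ | t ≤ l.getD i 0}) := by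
      rw [Set.disjoint_left]
      rintro i hi ⟨j, -, rfl⟩
      split_ifs at hi with h <;> simp at hi
    rw [h1, Set.encard_union_eq hdis, Nat.succ_injective.encard_image, ih, List.countP_cons]
    by_cases h : t ≤ x
    · simp [h, add_comm]
    · simp [h]

theorem rank_perm {l l' : List ℝ} (h : l.Perm l') (h0 : ∀ x ∈ l, 0 ≤ x) (k : ℕ) :
    rank (fun i => l.getD i 0) k = rank (fun i => l'.getD i 0) k := by
  have key : ∀ l : List ℝ, (∀ x ∈ l, 0 ≤ x) → ∀ i, 0 ≤ l.getD i 0 := by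
    intro l hl i
    by_cases hi : i < l.length
    · rw [List.getD_eq_getElem _ _ hi]; exact hl _ (List.getElem_mem hi)
    · rw [List.getD_eq_default _ _ (not_lt.1 hi)]
  refine rank_congr (key l h0) (key l' fun x hx => h0 x (h.mem_iff.2 hx)) fun t ht => ?_
  rw [encard_getD l t ht, encard_getD l' t ht, h.countP_eq]

theorem rank_sorted {l : List ℝ} (hs : l.Pairwise (· ≥ ·)) (h0 : ∀ x ∈ l, 0 ≤ x) (k : ℕ) :
    rank (fun i => l.getD i 0) k = l.getD k 0 := by
  have h0' : ∀ i, 0 ≤ l.getD i 0 := by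
    intro i
    by_cases hi : i < l.length
    · rw [List.getD_eq_getElem _ _ hi]; exact h0 _ (List.getElem_mem hi)
    · rw [List.getD_eq_default _ _ (not_lt.1 hi)]
  refine rank_antitone_eq (v := fun i => l.getD i 0) (fun i j hij => ?_) h0' k
  show l.getD j 0 ≤ l.getD i 0
  by_cases hj : j < l.length
  · rcases hij.eq_or_lt with rfl | hlt
    · exact le_rfl
    · rw [List.getD_eq_getElem _ _ hj, List.getD_eq_getElem _ _ (hlt.trans hj)]
      exact List.pairwise_iff_getElem.1 hs i j (hlt.trans hj) hj hlt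
  · rw [List.getD_eq_default _ _ (not_lt.1 hj)]; exact h0' i

/-- measurability of the coordinates of `rank`. -/
theorem measurable_rank_coord (k : ℕ) : Measurable (fun v : ℕ → ℝ => rank v k) := by
  classical
  have h1 : ∀ v : ℕ → ℝ, rank v k = ⨆ s : {s : Finset ℕ // s.card = k + 1},
      s.1.inf' (Finset.card_pos.1 (by rw [s.2]; exact Nat.succ_pos k)) v := by
    intro v
    set a : {s : Finset ℕ // s.card = k + 1} → ℝ := fun s =>
      s.1.inf' (Finset.card_pos.1 (by rw [s.2]; exact Nat.succ_pos k)) v with ha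
    have hmem : ∀ t, (∃ s : Finset ℕ, s.card = k + 1 ∧ ∀ i ∈ s, t ≤ v i) ↔ ∃ s, t ≤ a s := by
      intro t
      constructor
      · rintro ⟨s, hs, hst⟩
        exact ⟨⟨s, hs⟩, Finset.le_inf' _ _ hst⟩
      · rintro ⟨s, hs⟩
        exact ⟨s.1, s.2, fun i hi => hs.trans (Finset.inf'_le _ hi)⟩
    have hne : Nonempty {s : Finset ℕ // s.card = k + 1} := ⟨⟨Finset.range (k + 1), by simp⟩⟩
    have hub : upperBounds {t : ℝ | ∃ s : Finset ℕ, s.card = k + 1 ∧ ∀ i ∈ s, t ≤ v i} =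
        upperBounds (Set.range a) := by
      ext b
      constructor
      · rintro hb _ ⟨s, rfl⟩
        exact hb ((hmem _).2 ⟨s, le_rfl⟩)
      · intro hb t ht
        obtain ⟨s, hs⟩ := (hmem t).1 ht
        exact hs.trans (hb ⟨s, rfl⟩)
    unfold rank
    rw [iSup]
    by_cases hbdd : BddAbove (Set.range a)
    · have hbdd' : BddAbove {t : ℝ | ∃ s : Finset ℕ, s.card = k + 1 ∧ ∀ i ∈ s, t ≤ v i} := by
        unfold BddAbove at hbdd ⊢
        rw [hub]; exact hbdd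
      have l1 := isLUB_csSup (Set.range_nonempty a) hbdd
      have l2 := isLUB_csSup (s := {t : ℝ | ∃ s : Finset ℕ, s.card = k + 1 ∧ ∀ i ∈ s, t ≤ v i})
        (by obtain ⟨s⟩ := hne; exact ⟨a s, (hmem _).2 ⟨s, le_rfl⟩⟩) hbdd'
      unfold IsLUB at l1 l2
      rw [hub] at l2
      exact l2.unique l1
    · have hbdd' : ¬ BddAbove {t : ℝ | ∃ s : Finset ℕ, s.card = k + 1 ∧ ∀ i ∈ s, t ≤ v i} := by
        unfold BddAbove at hbdd ⊢
        rw [hub]; exact hbdd
      rw [Real.sSup_of_not_bddAbove hbdd, Real.sSup_of_not_bddAbove hbdd']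
  simp_rw [h1]
  refine Measurable.iSup fun s => ?_
  have hm : Measurable (s.1.inf' (Finset.card_pos.1 (by rw [s.2]; exact Nat.succ_pos k))
      (fun (i : ℕ) (v : ℕ → ℝ) => v i)) :=
    Finset.inf'_induction _ _ (fun _f hf _g hg => hf.inf hg) fun i _ => measurable_pi_apply i
  convert hm using 1
  ext v
  rw [Finset.inf'_apply]

theorem measurable_rank : Measurable (rank : (ℕ → ℝ) → ℕ → ℝ) :=
  measurable_pi_iff.2 measurable_rank_coord

/-- truncation of a sequence to the first `k` terms. -/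
noncomputable def trunc (k : ℕ) (v : ℕ → ℝ) (i : ℕ) : ℝ := if i < k then v i else 0

theorem trunc_mem {k : ℕ} {v : ℕ → ℝ} (h : ∀ i < k, v i ∈ Set.Icc (0 : ℝ) 1) (i : ℕ) :
    trunc k v i ∈ Set.Icc (0 : ℝ) 1 := by
  unfold trunc
  split_ifs with hi
  · exact h i hi
  · simp

theorem tendsto_rank_trunc {k : ℕ} {x : ℕ → ℕ → ℝ} {y : ℕ → ℝ}
    (hx : ∀ n, ∀ i < k, x n i ∈ Set.Icc (0 : ℝ) 1) (hy : ∀ i < k, y i ∈ Set.Icc (0 : ℝ) 1)
    (h : ∀ i < k, Tendsto (fun n => x n i) atTop (𝓝 (y i))) :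
    Tendsto (fun n => rank (trunc k (x n))) atTop (𝓝 (rank (trunc k y))) := by
  rw [tendsto_pi_nhds]
  intro j
  rw [tendsto_iff_dist_tendsto_zero]
  have h1 : Tendsto (fun n => ∑ i ∈ Finset.range k, |x n i - y i|) atTop (𝓝 0) := by
    have : Tendsto (fun n => ∑ i ∈ Finset.range k, |x n i - y i|) atTop
        (𝓝 (∑ i ∈ Finset.range k, 0)) := by
      refine tendsto_finsetSum _ fun i hi => ?_
      have h2 := (h i (Finset.mem_range.1 hi)).sub (tendsto_const_nhds (x := y i))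
      rw [sub_self] at h2
      have h3 := h2.abs
      rwa [abs_zero] at h3
    simpa using this
  refine squeeze_zero (fun n => dist_nonneg) (fun n => ?_) h1
  rw [Real.dist_eq]
  refine abs_rank_sub_le (B := 1) (fun i => (trunc_mem (hx n) i).1) (fun i => (trunc_mem hy i).1)
    (fun i => (trunc_mem (hx n) i).2) (fun i => (trunc_mem hy i).2) fun i => ?_
  unfold trunc
  split_ifs with hi
  · exact Finset.single_le_sum (f := fun i => |x n i - y i|) (fun _ _ => abs_nonneg _)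
      (Finset.mem_range.2 hi)
  · simp only [sub_self, abs_zero]
    exact Finset.sum_nonneg fun _ _ => abs_nonneg _

end MP6cc1fa
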