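import Pool.Agent.Lib.MP_6cc1fa_pr.PD.Rank

/-! MP_6cc1fa_pr: stick breaking: remainders, expectation of the remainder, the discrete stick
breaking and its law (helper60). -/

open MeasureTheory Polynomial Filter Topology

namespace MP6cc1fa

noncomputable section

instance unif_prob : IsProbabilityMeasure ((volume : Measure ℝ).restrict (Set.Icc 0 1)) :=
  ⟨by simp⟩

instance unifSeq_prob : IsProbabilityMeasure unifSeq := by unfold unifSeq; infer_instance

theorem ae_unif_Ioo : ∀ᵐ x ∂((volume : Measure ℝ).restrict (Set.Icc 0 1)), x ∈ Set.Ioo (0 : ℝ) 1 := by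
  have h : ((volume : Measure ℝ).restrict (Set.Icc 0 1)) = volume.restrict (Set.Ioo 0 1) :=
    (Measure.restrict_congr_set Ioo_ae_eq_Icc).symm
  rw [h]
  exact ae_restrict_mem measurableSet_Ioo

theorem ae_unifSeq : ∀ᵐ u ∂unifSeq, ∀ i, u i ∈ Set.Ioo (0 : ℝ) 1 := by
  rw [ae_all_iff]
  intro i
  have h := (measurePreserving_eval_infinitePi
    (fun _ : ℕ => (volume : Measure ℝ).restrict (Set.Icc 0 1)) i).quasiMeasurePreserving.ae
      ae_unif_Ioo
  exact h

theorem measurable_stick (i : ℕ) : Measurable (fun u : ℕ → ℝ => stick u i) := by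
  unfold stick
  exact (measurable_pi_apply i).mul (Finset.measurable_fun_prod _ fun j _ =>
    measurable_const.sub (measurable_pi_apply j))

theorem measurable_stick' : Measurable (stick : (ℕ → ℝ) → ℕ → ℝ) :=
  measurable_pi_iff.2 measurable_stick

/-- the remainder after `k` steps -/
def remn (u : ℕ → ℝ) (k : ℕ) : ℝ := ∏ j ∈ Finset.range k, (1 - u j)

theorem remn_zero (u : ℕ → ℝ) : remn u 0 = 1 := by simp [remn]

theorem remn_succ (u : ℕ → ℝ) (k : ℕ) : remn u (k + 1) = remn u k * (1 - u k) := by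
  simp [remn, Finset.prod_range_succ]

theorem stick_eq (u : ℕ → ℝ) (i : ℕ) : stick u i = u i * remn u i := rfl

theorem sum_stick (u : ℕ → ℝ) (k : ℕ) : ∑ i ∈ Finset.range k, stick u i = 1 - remn u k := by
  induction k with
  | zero => simp [remn_zero]
  | succ k ih => rw [Finset.sum_range_succ, ih, remn_succ, stick_eq]; ring

theorem remn_mem {u : ℕ → ℝ} (hu : ∀ i, u i ∈ Set.Icc (0 : ℝ) 1) (k : ℕ) :
    remn u k ∈ Set.Icc (0 : ℝ) 1 := by
  induction k with
  | zero => simp [remn_zero]
  | succ k ih =>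
    rw [remn_succ]
    have := hu k
    constructor
    · exact mul_nonneg ih.1 (by linarith [this.2])
    · exact mul_le_one₀ ih.2 (by linarith [this.2]) (by linarith [this.1])

theorem remn_anti {u : ℕ → ℝ} (hu : ∀ i, u i ∈ Set.Icc (0 : ℝ) 1) : Antitone (remn u) := by
  refine antitone_nat_of_succ_le fun k => ?_
  rw [remn_succ]
  exact mul_le_of_le_one_right (remn_mem hu k).1 (by linarith [(hu k).1])

theorem remn_pos {u : ℕ → ℝ} (hu : ∀ i, u i ∈ Set.Ioo (0 : ℝ) 1) (k : ℕ) : 0 < remn u k :=
  Finset.prod_pos fun j _ => by linarith [(hu j).2]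

theorem stick_mem {u : ℕ → ℝ} (hu : ∀ i, u i ∈ Set.Icc (0 : ℝ) 1) (i : ℕ) :
    stick u i ∈ Set.Icc (0 : ℝ) 1 := by
  rw [stick_eq]
  exact ⟨mul_nonneg (hu i).1 (remn_mem hu i).1,
    mul_le_one₀ (hu i).2 (remn_mem hu i).1 (remn_mem hu i).2⟩

theorem stick_le_remn {u : ℕ → ℝ} (hu : ∀ i, u i ∈ Set.Icc (0 : ℝ) 1) (i : ℕ) :
    stick u i ≤ remn u i := by
  rw [stick_eq]
  exact mul_le_of_le_one_left (remn_mem hu i).1 (hu i).2

/-- truncating the stick breaking sequence changes the ranked sequence by at most the remainder -/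
theorem abs_rank_stick_sub {u : ℕ → ℝ} (hu : ∀ i, u i ∈ Set.Icc (0 : ℝ) 1) (k j : ℕ) :
    |rank (trunc k (stick u)) j - rank (stick u) j| ≤ remn u k := by
  refine abs_rank_sub_le (B := 1) (fun i => (trunc_mem (fun i _ => stick_mem hu i) i).1)
    (fun i => (stick_mem hu i).1) (fun i => (trunc_mem (fun i _ => stick_mem hu i) i).2)
    (fun i => (stick_mem hu i).2) fun i => ?_
  unfold trunc
  split_ifs with hi
  · simp [(remn_mem hu k).1]
  · rw [zero_sub, abs_neg, abs_of_nonneg (stick_mem hu i).1]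
    exact (stick_le_remn hu i).trans (remn_anti hu (not_lt.1 hi))

theorem measurable_remn (k : ℕ) : Measurable (fun u : ℕ → ℝ => remn u k) := by
  unfold remn
  exact Finset.measurable_fun_prod _ fun j _ => measurable_const.sub (measurable_pi_apply j)

/-- the expected remainder after `k` steps is `2^{-k}` -/
theorem integral_remn (k : ℕ) : ∫ u, remn u k ∂unifSeq = (1 / 2 : ℝ) ^ k := by
  have h1 : ∀ u : ℕ → ℝ, remn u k =
      (fun y : ↥(Finset.range k) → ℝ => ∏ i, (1 - y i)) ((Finset.range k).restrict u) := by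
    intro u
    unfold remn
    rw [← Finset.prod_coe_sort]
    rfl
  unfold unifSeq
  have h3 := integral_restrict_infinitePi
    (μ := fun _ : ℕ => (volume : Measure ℝ).restrict (Set.Icc 0 1)) (s := Finset.range k)
    (f := fun y : ↥(Finset.range k) → ℝ => ∏ i, (1 - y i))
    (Finset.measurable_fun_prod _ fun j _ =>
      measurable_const.sub (measurable_pi_apply j)).aestronglyMeasurable
  rw [integral_congr_ae (ae_of_all _ h1), h3,
    integral_fintype_prod_eq_prod (f := fun (_ : ↥(Finset.range k)) (x : ℝ) => 1 - x)]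
  have h2 : ∫ x : ℝ in Set.Icc 0 1, (1 - x) = 1 / 2 := by
    rw [integral_Icc_eq_integral_Ioc, ← intervalIntegral.integral_of_le zero_le_one,
      intervalIntegral.integral_sub (by simp) (by simp)]
    simp
    norm_num
  rw [h2]
  simp

/-! ### discrete stick breaking -/

/-- the remaining length of the discrete stick of length `n` after `j` steps -/
def drem (n : ℕ) (u : ℕ → ℝ) : ℕ → ℕ
  | 0 => n
  | (j + 1) => drem n u j - ⌈u j * (drem n u j : ℝ)⌉₊

/-- the pieces of the discrete stick breaking -/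
def dst (n : ℕ) (u : ℕ → ℝ) (j : ℕ) : ℕ := ⌈u j * (drem n u j : ℝ)⌉₊

theorem drem_succ (n : ℕ) (u : ℕ → ℝ) (j : ℕ) : drem n u (j + 1) = drem n u j - dst n u j := rfl

theorem dst_le {n : ℕ} {u : ℕ → ℝ} (hu : ∀ i, u i ∈ Set.Icc (0 : ℝ) 1) (j : ℕ) :
    dst n u j ≤ drem n u j := by
  unfold dst
  rw [Nat.ceil_le]
  exact mul_le_of_le_one_left (Nat.cast_nonneg _) (hu j).2

theorem sum_dst {n : ℕ} {u : ℕ → ℝ} (hu : ∀ i, u i ∈ Set.Icc (0 : ℝ) 1) (j : ℕ) :
    ∑ i ∈ Finset.range j, dst n u i + drem n u j = n := by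
  induction j with
  | zero => simp [drem]
  | succ j ih =>
    rw [Finset.sum_range_succ, drem_succ]
    have := dst_le (n := n) hu j
    omega

theorem measurable_drem (n j : ℕ) : Measurable (fun u : ℕ → ℝ => drem n u j) := by
  induction j with
  | zero => exact measurable_const
  | succ j ih =>
    have h1 : Measurable (fun u : ℕ → ℝ => ⌈u j * (drem n u j : ℝ)⌉₊) :=
      Nat.measurable_ceil.comp ((measurable_pi_apply j).mul (measurable_from_top.comp ih))
    exact ih.sub h1

theorem measurable_dst (n j : ℕ) : Measurable (fun u : ℕ → ℝ => dst n u j) :=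
  Nat.measurable_ceil.comp ((measurable_pi_apply j).mul
    (measurable_from_top.comp (measurable_drem n j)))

theorem tendsto_drem {u : ℕ → ℝ} (hu : ∀ i, u i ∈ Set.Icc (0 : ℝ) 1) (j : ℕ) :
    Tendsto (fun n : ℕ => (drem n u j : ℝ) / n) atTop (𝓝 (remn u j)) ∧
      Tendsto (fun n : ℕ => (dst n u j : ℝ) / n) atTop (𝓝 (stick u j)) := by
  have key : ∀ j, Tendsto (fun n : ℕ => (drem n u j : ℝ) / n) atTop (𝓝 (remn u j)) →
      Tendsto (fun n : ℕ => (dst n u j : ℝ) / n) atTop (𝓝 (stick u j)) := by
    intro j h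
    have h1 : Tendsto (fun n : ℕ => u j * ((drem n u j : ℝ) / n)) atTop (𝓝 (stick u j)) := by
      rw [stick_eq]; exact h.const_mul _
    have h2 : Tendsto (fun n : ℕ => u j * ((drem n u j : ℝ) / n) + 1 / n) atTop
        (𝓝 (stick u j)) := by
      have := h1.add tendsto_one_div_atTop_nhds_zero_nat
      rwa [add_zero] at this
    refine tendsto_of_tendsto_of_tendsto_of_le_of_le h1 h2 (fun n => ?_) (fun n => ?_)
    · rw [← mul_div_assoc]
      exact div_le_div_of_nonneg_right (Nat.le_ceil _) (Nat.cast_nonneg _)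
    · simp only
      rw [← mul_div_assoc, ← add_div]
      refine div_le_div_of_nonneg_right ?_ (Nat.cast_nonneg _)
      exact (Nat.ceil_lt_add_one (mul_nonneg (hu j).1 (Nat.cast_nonneg _))).le
  have h0 : ∀ j, Tendsto (fun n : ℕ => (drem n u j : ℝ) / n) atTop (𝓝 (remn u j)) := by
    intro j
    induction j with
    | zero =>
      rw [remn_zero]
      refine tendsto_const_nhds.congr' ?_
      filter_upwards [eventually_ge_atTop 1] with n hn
      have : (n : ℝ) ≠ 0 := by positivity
      simp [drem, this]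
    | succ j ih =>
      have h3 := ih.sub (key j ih)
      have h4 : remn u j - stick u j = remn u (j + 1) := by
        rw [remn_succ, stick_eq]; ring
      rw [h4] at h3
      refine h3.congr fun n => ?_
      rw [drem_succ, Nat.cast_sub (dst_le hu j), sub_div]
  exact ⟨h0 j, key j (h0 j)⟩

/-- partial sums of a tuple -/
def psum {k : ℕ} (d : Fin k → ℕ) (i : ℕ) : ℕ := ∑ j : Fin k, if (j : ℕ) < i then d j else 0

theorem psum_zero {k : ℕ} (d : Fin k → ℕ) : psum d 0 = 0 := by simp [psum]

theorem psum_last {k : ℕ} (d : Fin k → ℕ) : psum d k = ∑ i, d i := by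
  unfold psum
  exact Finset.sum_congr rfl fun j _ => by rw [if_pos j.2]

theorem psum_succ {k : ℕ} (d : Fin k → ℕ) (i : Fin k) : psum d (i + 1) = psum d i + d i := by
  classical
  unfold psum
  have h : ∀ j : Fin k, (if (j : ℕ) < (i : ℕ) + 1 then d j else 0) =
      (if (j : ℕ) < i then d j else 0) + if j = i then d j else 0 := by
    intro j
    rcases lt_trichotomy (j : ℕ) (i : ℕ) with h | h | h
    · have : j ≠ i := fun hji => by rw [hji] at h; exact lt_irrefl _ h
      rw [if_pos (by omega), if_pos h, if_neg this, add_zero]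
    · have : j = i := Fin.ext h
      rw [if_pos (by omega), if_neg (by omega), if_pos this, zero_add]
    · have : j ≠ i := fun hji => by rw [hji] at h; exact lt_irrefl _ h
      rw [if_neg (by omega), if_neg (by omega), if_neg this, add_zero]
  simp_rw [h]
  rw [Finset.sum_add_distrib, Finset.sum_ite_eq']
  simp

theorem psum_mono {k : ℕ} (d : Fin k → ℕ) : Monotone (psum d) := by
  intro a b hab
  unfold psum
  refine Finset.sum_le_sum fun j _ => ?_
  split_ifs with h1 h2
  · exact le_rfl
  · omega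
  · exact Nat.zero_le _
  · exact le_rfl

theorem psum_cons {k : ℕ} (d : Fin (k + 1) → ℕ) (i : ℕ) :
    psum d (i + 1) = d 0 + psum (Fin.tail d) i := by
  unfold psum
  rw [Fin.sum_univ_succ]
  simp [Fin.tail]

/-- the weight of a tuple in the discrete stick breaking -/
def qt {k : ℕ} (n : ℕ) (d : Fin k → ℕ) : ℝ := ∏ i : Fin k, (1 / ((n : ℝ) - psum d i))

theorem qt_cons {k : ℕ} (n : ℕ) (d : Fin (k + 1) → ℕ) (h : d 0 ≤ n) :
    qt n d = 1 / (n : ℝ) * qt (n - d 0) (Fin.tail d) := by
  unfold qt
  rw [Fin.prod_univ_succ]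
  congr 1
  · simp [psum_zero]
  · refine Finset.prod_congr rfl fun i _ => ?_
    have h1 : psum d ((Fin.succ i : Fin (k + 1)) : ℕ) = d 0 + psum (Fin.tail d) i := by
      rw [Fin.val_succ, psum_cons]
    rw [h1, Nat.cast_sub h]
    push_cast
    ring

/-- the law of the discrete stick breaking -/
theorem law_dst {k n : ℕ} (d : Fin k → ℕ) (h1 : ∀ i, 1 ≤ d i) (hn : ∑ i, d i ≤ n) :
    unifSeq.real {u | (fun i : Fin k => dst n u i) = d} = qt n d := by
  classical
  have hps : ∀ i : Fin k, psum d i + d i ≤ n := fun i => by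
    rw [← psum_succ]
    exact ((psum_mono d i.2).trans (psum_last d).le).trans hn
  -- rem along the event
  have hrem : ∀ (u : ℕ → ℝ) (i : ℕ), i ≤ k → (∀ j : Fin k, (j : ℕ) < i → dst n u j = d j) →
      drem n u i = n - psum d i := by
    intro u i
    induction i with
    | zero => intro _ _; simp [drem, psum_zero]
    | succ i ih =>
      intro hi hj
      have h2 := ih (by omega) (fun j hj' => hj j (by omega))
      have h3 := hj ⟨i, hi⟩ (Nat.lt_succ_self i)
      rw [drem_succ, h2]
      have h4 := psum_succ d ⟨i, hi⟩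
      simp only at h3 h4
      rw [h3, h4, Nat.sub_add_eq]
  let t : ℕ → Set ℝ := fun i => if h : i < k then
    Set.Ioc (((d ⟨i, h⟩ : ℝ) - 1) / ((n : ℝ) - psum d i)) ((d ⟨i, h⟩ : ℝ) / ((n : ℝ) - psum d i))
    else Set.univ
  have hpos : ∀ i : Fin k, (0 : ℝ) < (n : ℝ) - psum d i := fun i => by
    have h2 := hps i
    have h3 := h1 i
    have : (psum d i : ℝ) + 1 ≤ n := by exact_mod_cast (by omega : psum d i + 1 ≤ n)
    linarith
  have hset : {u : ℕ → ℝ | (fun i : Fin k => dst n u i) = d} =
      Set.pi (Finset.range k : Finset ℕ) t := by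
    ext u
    simp only [Set.mem_ofPred_eq, Set.mem_pi, Finset.coe_range, Set.mem_Iio]
    have hone : ∀ i : Fin k, (∀ j : Fin k, (j : ℕ) < i → dst n u j = d j) →
        (dst n u i = d i ↔ u i ∈ t i) := by
      intro i hi
      have h2 := hrem u i i.2.le hi
      have h3 : (drem n u i : ℝ) = (n : ℝ) - psum d i := by
        rw [h2, Nat.cast_sub ((Nat.le_add_right _ _).trans (hps i))]
      have h4 : t i = Set.Ioc (((d i : ℝ) - 1) / ((n : ℝ) - psum d i))
          ((d i : ℝ) / ((n : ℝ) - psum d i)) := by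
        simp only [t, dif_pos i.2]
      rw [h4, Set.mem_Ioc, div_lt_iff₀ (hpos i), le_div_iff₀ (hpos i), ← h3]
      unfold dst
      rw [Nat.ceil_eq_iff (by have := h1 i; omega), Nat.cast_sub (h1 i), Nat.cast_one]
    constructor
    · intro h i hi
      have h' : ∀ j : Fin k, dst n u j = d j := fun j => congrFun h j
      exact (hone ⟨i, hi⟩ (fun j _ => h' j)).1 (h' ⟨i, hi⟩)
    · intro h
      have h5 : ∀ m : ℕ, ∀ i : Fin k, (i : ℕ) = m → dst n u i = d i := by
        intro m
        induction m using Nat.strong_induction_on with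
        | _ m ih =>
          intro i him
          exact (hone i fun j hj => ih j (him ▸ hj) j rfl).2 (h i i.2)
      funext i
      exact h5 i i rfl
  rw [hset]
  unfold unifSeq Measure.real
  rw [Measure.infinitePi_pi]
  · rw [ENNReal.toReal_prod, Finset.prod_range]
    unfold qt
    refine Finset.prod_congr rfl fun i _ => ?_
    have h4 : t i = Set.Ioc (((d i : ℝ) - 1) / ((n : ℝ) - psum d i))
          ((d i : ℝ) / ((n : ℝ) - psum d i)) := by
        simp only [t, dif_pos i.2]
    have h6 : Set.Ioc (((d i : ℝ) - 1) / ((n : ℝ) - psum d i))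
          ((d i : ℝ) / ((n : ℝ) - psum d i)) ⊆ Set.Icc 0 1 := by
      intro x hx
      have hx1 : (0 : ℝ) ≤ ((d i : ℝ) - 1) / ((n : ℝ) - psum d i) := by
        refine div_nonneg ?_ (hpos i).le
        have : (1 : ℝ) ≤ d i := by exact_mod_cast h1 i
        linarith
      have hx2 : (d i : ℝ) / ((n : ℝ) - psum d i) ≤ 1 := by
        rw [div_le_one (hpos i)]
        have : (psum d i : ℝ) + d i ≤ n := by exact_mod_cast hps i
        linarith
      exact ⟨hx1.trans hx.1.le, hx.2.trans hx2⟩
    rw [h4, Measure.restrict_apply measurableSet_Ioc, Set.inter_eq_left.2 h6, Real.volume_Ioc,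
      ENNReal.toReal_ofReal]
    · rw [← sub_div]; congr 1; ring
    · rw [← sub_div]
      exact div_nonneg (by linarith) (hpos i).le
  · intro i hi
    simp only [t]
    split_ifs
    · exact measurableSet_Ioc
    · exact MeasurableSet.univ

end

end MP6cc1fa
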