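import Pool.Agent.Lib.MP_6cc1fa_pr.PD.Stick

/-! MP_6cc1fa_pr: tuples of prime divisors of a polynomial: total size-biased mass, comparison of
the ranked sequence of degrees with a tuple (helper60). -/

open MeasureTheory Polynomial Filter Topology UniqueFactorizationMonoid

namespace MP6cc1fa

noncomputable section

variable {F : Type} [Field F] [DecidableEq F]

/-- monic irreducible divisors -/
def pdiv (f : F[X]) : Finset F[X] := (normalizedFactors f).toFinset

theorem mem_pdiv {f : F[X]} (hf : f ≠ 0) {P : F[X]} :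
    P ∈ pdiv f ↔ Irreducible P ∧ P.Monic ∧ P ∣ f := by
  unfold pdiv
  rw [Multiset.mem_toFinset, Polynomial.mem_normalizedFactors_iff hf]

theorem sum_deg {f : F[X]} (hf : f ≠ 0) :
    ((normalizedFactors f).map natDegree).sum = f.natDegree := by
  rw [← natDegree_multiset_prod_of_monic]
  · exact natDegree_eq_of_degree_eq
      (degree_eq_degree_of_associated (prod_normalizedFactors hf))
  · intro P hP
    exact ((Polynomial.mem_normalizedFactors_iff hf).1 hP).2.1

theorem sum_pdiv_le {f : F[X]} (hf : f ≠ 0) : ∑ P ∈ pdiv f, P.natDegree ≤ f.natDegree := by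
  rw [← sum_deg hf]
  unfold pdiv
  have h : ∑ P ∈ (normalizedFactors f).toFinset, P.natDegree =
      ((normalizedFactors f).dedup.map natDegree).sum := by
    simp [Finset.sum, Multiset.toFinset]
  rw [h]
  have hle : (normalizedFactors f).dedup ≤ normalizedFactors f := Multiset.dedup_le _
  obtain ⟨t, ht⟩ := Multiset.le_iff_exists_add.1 (Multiset.map_le_map (f := natDegree) hle)
  rw [ht, Multiset.sum_add]
  exact Nat.le_add_right _ _

/-- all `k`-tuples of monic irreducible polynomials with product dividing `f` -/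
def TT : (k : ℕ) → F[X] → Finset (Fin k → F[X])
  | 0, _ => Finset.univ
  | (k + 1), f => (pdiv f).biUnion fun P => (TT k (f / P)).image (Fin.cons P)

theorem mem_TT (k : ℕ) {f : F[X]} (hf : f ≠ 0) (P : Fin k → F[X]) :
    P ∈ TT k f ↔ (∀ i, (P i).Monic ∧ Irreducible (P i)) ∧ ∏ i, P i ∣ f := by
  induction k generalizing f with
  | zero => exact ⟨fun _ => ⟨fun i => i.elim0, by simp⟩, fun _ => Finset.mem_univ _⟩
  | succ k ih =>
    simp only [TT, Finset.mem_biUnion, Finset.mem_image]
    constructor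
    · rintro ⟨Q, hQ, P', hP', rfl⟩
      rw [mem_pdiv hf] at hQ
      obtain ⟨hQi, hQm, hQd⟩ := hQ
      have h1 : Q * (f / Q) = f := EuclideanDomain.mul_div_cancel' hQm.ne_zero hQd
      have hne : f / Q ≠ 0 := by
        intro h0; rw [h0, mul_zero] at h1; exact hf h1.symm
      rw [ih hne] at hP'
      refine ⟨fun i => ?_, ?_⟩
      · refine Fin.cases ?_ (fun j => ?_) i
        · simpa using ⟨hQm, hQi⟩
        · simpa using hP'.1 j
      · rw [Fin.prod_univ_succ]
        simp only [Fin.cons_zero, Fin.cons_succ]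
        conv_rhs => rw [← h1]
        exact mul_dvd_mul_left Q hP'.2
    · rintro ⟨h1, h2⟩
      rw [Fin.prod_univ_succ] at h2
      have hd : P 0 ∣ f := (Dvd.intro _ rfl).trans h2
      have h3 : P 0 * (f / P 0) = f := EuclideanDomain.mul_div_cancel' (h1 0).1.ne_zero hd
      have hne : f / P 0 ≠ 0 := by
        intro h0; rw [h0, mul_zero] at h3; exact hf h3.symm
      refine ⟨P 0, (mem_pdiv hf).2 ⟨(h1 0).2, (h1 0).1, hd⟩, Fin.tail P, ?_, Fin.cons_self_tail P⟩
      rw [ih hne]
      refine ⟨fun i => h1 i.succ, ?_⟩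
      have h4 : P 0 * ∏ i : Fin k, Fin.tail P i ∣ P 0 * (f / P 0) := by
        rw [h3]; exact h2
      exact (mul_dvd_mul_iff_left (h1 0).1.ne_zero).1 h4

/-- the size biased weight of a tuple of degrees -/
def wt {k : ℕ} (n : ℕ) (d : Fin k → ℕ) : ℝ := (∏ i, (d i : ℝ)) * qt n d

theorem wt_cons {k : ℕ} (n : ℕ) (d : Fin (k + 1) → ℕ) (h : d 0 ≤ n) :
    wt n d = (d 0 : ℝ) / n * wt (n - d 0) (Fin.tail d) := by
  unfold wt
  rw [qt_cons n d h, Fin.prod_univ_succ]
  have : ∏ i : Fin k, (d i.succ : ℝ) = ∏ i : Fin k, (Fin.tail d i : ℝ) := rfl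
  rw [this]
  ring

theorem sum_TT_le (k : ℕ) {f : F[X]} (hf : f ≠ 0) :
    ∑ P ∈ TT k f, wt f.natDegree (fun i => (P i).natDegree) ≤ 1 ∧
      ∀ P ∈ TT k f, 0 ≤ wt f.natDegree (fun i => (P i).natDegree) := by
  induction k generalizing f with
  | zero => simp [TT, wt, qt]
  | succ k ih =>
    have hstep : ∀ Q ∈ pdiv f, ∀ P' ∈ TT k (f / Q),
        wt f.natDegree (fun i => ((Fin.cons Q P' : Fin (k + 1) → F[X]) i).natDegree) =
          (Q.natDegree : ℝ) / f.natDegree *
            wt (f / Q).natDegree (fun i => (P' i).natDegree) := by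
      intro Q hQ P' hP'
      rw [mem_pdiv hf] at hQ
      obtain ⟨hQi, hQm, hQd⟩ := hQ
      have h1 : Q * (f / Q) = f := EuclideanDomain.mul_div_cancel' hQm.ne_zero hQd
      have hne : f / Q ≠ 0 := by
        intro h0; rw [h0, mul_zero] at h1; exact hf h1.symm
      have h2 : f.natDegree = Q.natDegree + (f / Q).natDegree := by
        conv_lhs => rw [← h1]
        exact natDegree_mul hQm.ne_zero hne
      rw [wt_cons _ _ (by simp only [Fin.cons_zero]; omega)]
      congr 1
      simp only [Fin.cons_zero]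
      rw [show f.natDegree - Q.natDegree = (f / Q).natDegree by omega]
      rfl
    have hne : ∀ Q ∈ pdiv f, f / Q ≠ 0 := by
      intro Q hQ
      rw [mem_pdiv hf] at hQ
      obtain ⟨hQi, hQm, hQd⟩ := hQ
      have h1 : Q * (f / Q) = f := EuclideanDomain.mul_div_cancel' hQm.ne_zero hQd
      intro h0; rw [h0, mul_zero] at h1; exact hf h1.symm
    constructor
    · have hdisj : ((pdiv f : Finset F[X]) : Set F[X]).PairwiseDisjoint
          (fun P => (TT k (f / P)).image (Fin.cons (α := fun _ => F[X]) P)) := by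
        intro P _ Q _ hPQ
        rw [Function.onFun, Finset.disjoint_left]
        intro R hR hR'
        rw [Finset.mem_image] at hR hR'
        obtain ⟨a, -, rfl⟩ := hR
        obtain ⟨b, -, hb⟩ := hR'
        apply hPQ
        have := congrFun hb 0
        simpa using this.symm
      simp only [TT]
      rw [Finset.sum_biUnion hdisj]
      have h1 : ∀ Q ∈ pdiv f, ∑ P ∈ (TT k (f / Q)).image (Fin.cons Q),
          wt f.natDegree (fun i => ((P : Fin (k + 1) → F[X]) i).natDegree) ≤
            (Q.natDegree : ℝ) / f.natDegree := by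
        intro Q hQ
        rw [Finset.sum_image (fun a _ b _ h => (Fin.cons_right_injective (α := fun _ => F[X]) Q) h),
          Finset.sum_congr rfl (hstep Q hQ), ← Finset.mul_sum]
        exact mul_le_of_le_one_right (by positivity) (ih (hne Q hQ)).1
      refine (Finset.sum_le_sum h1).trans ?_
      rw [← Finset.sum_div, ← Nat.cast_sum]
      refine div_le_one_of_le₀ ?_ (Nat.cast_nonneg _)
      exact_mod_cast sum_pdiv_le hf
    · intro P hP
      simp only [TT, Finset.mem_biUnion, Finset.mem_image] at hP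
      obtain ⟨Q, hQ, P', hP', rfl⟩ := hP
      rw [hstep Q hQ P' hP']
      exact mul_nonneg (by positivity) ((ih (hne Q hQ)).2 P' hP')

theorem tup_eq {k : ℕ} {f : F[X]} (hf : f ≠ 0) (d : Fin k → ℕ) :
    tup f d = (((TT k f).filter fun P => (fun i => (P i).natDegree) = d : Finset _) :
      Set (Fin k → F[X])) := by
  ext P
  rw [Finset.mem_coe, Finset.mem_filter, mem_TT k hf]
  constructor
  · rintro ⟨h1, h2⟩
    exact ⟨⟨fun i => ⟨(h1 i).1, (h1 i).2.1⟩, h2⟩, funext fun i => (h1 i).2.2⟩
  · rintro ⟨⟨h1, h2⟩, h3⟩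
    exact ⟨fun i => ⟨(h1 i).1, (h1 i).2, congrFun h3 i⟩, h2⟩

theorem ncard_tup {k : ℕ} {f : F[X]} (hf : f ≠ 0) (d : Fin k → ℕ) :
    (tup f d).ncard = ((TT k f).filter fun P => (fun i => (P i).natDegree) = d).card := by
  rw [tup_eq hf, Set.ncard_coe_finset]

/-- the total size biased mass is at most one -/
theorem mass_le {k : ℕ} {f : F[X]} (hf : f ≠ 0) (S : Finset (Fin k → ℕ)) :
    ∑ d ∈ S, ((tup f d).ncard : ℝ) * wt f.natDegree d ≤ 1 := by
  have h1 : ∀ d ∈ S, ((tup f d).ncard : ℝ) * wt f.natDegree d =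
      ∑ P ∈ (TT k f).filter (fun P => (fun i => (P i).natDegree) = d),
        wt f.natDegree (fun i => (P i).natDegree) := by
    intro d _
    rw [ncard_tup hf, ← nsmul_eq_mul, ← Finset.sum_const]
    refine Finset.sum_congr rfl fun P hP => ?_
    rw [(Finset.mem_filter.1 hP).2]
  rw [Finset.sum_congr rfl h1]
  refine le_trans (Finset.sum_fiberwise_le_sum_of_sum_fiber_nonneg (s := TT k f) (t := S)
    (g := fun P => (fun i => (P i).natDegree))
    (f := fun P => wt f.natDegree (fun i => (P i).natDegree)) fun d _ => ?_) (sum_TT_le k hf).1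
  exact Finset.sum_nonneg fun P hP => (sum_TT_le k hf).2 P (Finset.mem_filter.1 hP).1

/-- the padded sequence of normalised entries of a tuple -/
def seqd {k : ℕ} (n : ℕ) (d : Fin k → ℕ) (i : ℕ) : ℝ :=
  if h : i < k then (d ⟨i, h⟩ : ℝ) / n else 0

theorem degSeq_eq_rank {f : F[X]} (l : List ℕ)
    (hl : (normalizedFactors f).map natDegree = (l : Multiset ℕ)) (j : ℕ) :
    degSeq f j = rank (fun i => (l.map (fun x : ℕ => (x : ℝ) / f.natDegree)).getD i 0) j := by
  set n := f.natDegree with hn
  set s : List ℕ := ((normalizedFactors f).map natDegree).sort (· ≥ ·) with hs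
  have hperm : s.Perm l := by
    rw [← Multiset.coe_eq_coe, hs, Multiset.sort_eq, hl]
  have h1 : degSeq f j = (s.map (fun x : ℕ => (x : ℝ) / n)).getD j 0 := by
    have := List.getD_map (l := s) (d := 0) (n := j) (fun x : ℕ => (x : ℝ) / n)
    simp only [Nat.cast_zero, zero_div] at this
    rw [this]
    rfl
  have h0 : ∀ x ∈ s.map (fun x : ℕ => (x : ℝ) / n), 0 ≤ x := by
    intro x hx
    obtain ⟨y, -, rfl⟩ := List.mem_map.1 hx
    positivity
  rw [h1, ← rank_sorted ?_ h0 j]
  · exact rank_perm (hperm.map _) h0 j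
  · rw [List.pairwise_map]
    refine (Multiset.pairwise_sort _ (· ≥ ·)).imp fun {a b} hab => ?_
    exact div_le_div_of_nonneg_right (by exact_mod_cast hab) (Nat.cast_nonneg _)

theorem deg_le_of_mem {f P : F[X]} (hf : f ≠ 0) (hP : P ∈ normalizedFactors f) :
    P.natDegree ≤ f.natDegree :=
  natDegree_le_of_dvd ((Polynomial.mem_normalizedFactors_iff hf).1 hP).2.2 hf

/-- comparison of the ranked degree sequence with a tuple of prime divisors -/
theorem abs_degSeq_sub_le {k : ℕ} {f : F[X]} (hf : f ≠ 0) {d : Fin k → ℕ}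
    (hne : (tup f d).Nonempty) (j : ℕ) :
    |degSeq f j - rank (seqd f.natDegree d) j| ≤ 1 - (∑ i, (d i : ℝ)) / f.natDegree ∨
      f.natDegree = 0 := by
  rcases Nat.eq_zero_or_pos f.natDegree with hn0 | hn0
  · exact Or.inr hn0
  left
  obtain ⟨P, hP1, m, hm⟩ := hne
  have hprod : (∏ i, P i) ≠ 0 := Finset.prod_ne_zero_iff.2 fun i _ => (hP1 i).1.ne_zero
  have hmne : m ≠ 0 := by
    intro h0; rw [h0, mul_zero] at hm; exact hf hm
  have hdeg : f.natDegree = ∑ i, d i + m.natDegree := by
    rw [hm, natDegree_mul hprod hmne, natDegree_prod_of_monic _ _ fun i _ => (hP1 i).1]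
    rw [Finset.sum_congr rfl fun i _ => (hP1 i).2.2]
  have hnf : normalizedFactors f =
      (List.ofFn P : Multiset F[X]) + normalizedFactors m := by
    rw [hm, normalizedFactors_mul hprod hmne]
    congr 1
    have h1 : (∏ i, P i) = (List.ofFn P : Multiset F[X]).prod := by
      rw [Multiset.prod_coe, List.prod_ofFn]
    rw [h1, normalizedFactors_prod_eq]
    · conv_rhs => rw [← Multiset.map_id (List.ofFn P : Multiset F[X])]
      refine Multiset.map_congr rfl fun Q hQ => ?_
      rw [Multiset.mem_coe, List.mem_ofFn] at hQ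
      obtain ⟨i, rfl⟩ := hQ
      exact (hP1 i).1.normalize_eq_self
    · intro Q hQ
      rw [Multiset.mem_coe, List.mem_ofFn] at hQ
      obtain ⟨i, rfl⟩ := hQ
      exact (hP1 i).2.1
  set lm : List ℕ := ((normalizedFactors m).map natDegree).toList with hlm
  have hl : (normalizedFactors f).map natDegree = ((List.ofFn d ++ lm : List ℕ) : Multiset ℕ) := by
    rw [hnf, Multiset.map_add, ← Multiset.coe_add, hlm, Multiset.coe_toList, Multiset.map_coe,
      List.map_ofFn]
    congr 3
    funext i
    exact (hP1 i).2.2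
  rw [degSeq_eq_rank _ hl]
  have hnpos : (0 : ℝ) < f.natDegree := by exact_mod_cast hn0
  have hrem : 1 - (∑ i, (d i : ℝ)) / f.natDegree = (m.natDegree : ℝ) / f.natDegree := by
    rw [eq_div_iff hnpos.ne', sub_mul, div_mul_cancel₀ _ hnpos.ne', hdeg]
    push_cast
    ring
  have hd_le : ∀ i, (d i : ℝ) / f.natDegree ≤ 1 := by
    intro i
    rw [div_le_one hnpos]
    have : d i ≤ ∑ i, d i := Finset.single_le_sum (fun _ _ => Nat.zero_le _) (Finset.mem_univ i)
    exact_mod_cast (by omega : d i ≤ f.natDegree)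
  have hlm_le : ∀ x ∈ lm, x ≤ m.natDegree := by
    intro x hx
    rw [hlm, Multiset.mem_toList, Multiset.mem_map] at hx
    obtain ⟨Q, hQ, rfl⟩ := hx
    exact deg_le_of_mem hmne hQ
  have hmle : m.natDegree ≤ f.natDegree := by omega
  have hv : ∀ i, ((List.ofFn d ++ lm).map (fun x : ℕ => (x : ℝ) / f.natDegree)).getD i 0 =
      if h : i < k then (d ⟨i, h⟩ : ℝ) / f.natDegree else (lm.getD (i - k) 0 : ℝ) / f.natDegree := by
    intro i
    have h1 := List.getD_map (l := List.ofFn d ++ lm) (d := 0) (n := i)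
      (fun x : ℕ => (x : ℝ) / f.natDegree)
    simp only [Nat.cast_zero, zero_div] at h1
    rw [h1]
    by_cases h : i < k
    · rw [dif_pos h, List.getD_append _ _ _ _ (by simpa using h)]
      simp [h]
    · rw [dif_neg h, List.getD_append_right _ _ _ _ (by simpa using h)]
      simp
  have hlmg : ∀ i, lm.getD i 0 ≤ m.natDegree := by
    intro i
    by_cases hi : i < lm.length
    · rw [List.getD_eq_getElem _ _ hi]; exact hlm_le _ (List.getElem_mem hi)
    · rw [List.getD_eq_default _ _ (not_lt.1 hi)]; exact Nat.zero_le _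
  rw [hrem]
  refine abs_rank_sub_le (B := 1) (fun i => ?_) (fun i => ?_) (fun i => ?_) (fun i => ?_)
    fun i => ?_
  · rw [hv]; split_ifs <;> positivity
  · unfold seqd; split_ifs <;> positivity
  · rw [hv]; split_ifs with h
    · exact hd_le _
    · rw [div_le_one hnpos]
      exact_mod_cast (hlmg _).trans hmle
  · unfold seqd; split_ifs with h
    · exact hd_le _
    · exact zero_le_one
  · rw [hv]
    unfold seqd
    split_ifs with h
    · rw [sub_self, abs_zero]; positivity
    · rw [sub_zero, abs_of_nonneg (by positivity)]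
      exact div_le_div_of_nonneg_right (by exact_mod_cast hlmg _) hnpos.le

theorem degSeq_mem {f : F[X]} (j : ℕ) : degSeq f j ∈ Set.Icc (0 : ℝ) 1 := by
  unfold degSeq
  constructor
  · positivity
  · refine div_le_one_of_le₀ ?_ (Nat.cast_nonneg _)
    by_cases hf : f = 0
    · simp [hf]
    · by_cases hj : j < (((normalizedFactors f).map natDegree).sort (· ≥ ·)).length
      · rw [List.getD_eq_getElem _ _ hj]
        have := List.getElem_mem hj
        rw [Multiset.mem_sort, Multiset.mem_map] at this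
        obtain ⟨Q, hQ, h⟩ := this
        rw [← h]
        exact_mod_cast deg_le_of_mem hf hQ
      · rw [List.getD_eq_default _ _ (not_lt.1 hj)]
        simp

end

end MP6cc1fa
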