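import Pool.Agent.Lib.MP_6cc1fa_pr.PD.Law

open MeasureTheory Polynomial Filter Topology UniqueFactorizationMonoid ProbabilityTheory

namespace MP6cc1fa

noncomputable section

open Pool.Agent.MP6cc1fa (mon cnt Irr IrrT nu ch)

variable {p : ℕ} [Fact p.Prime]

/-- The laws of `L^(n)` converge to the Poisson-Dirichlet law: for independent `ε_0, ε_1, …` with
law `μ`, `f_n = ∑_{i ≤ n} ε_i X^i`, the expectations of every bounded continuous function of
`L^(n)` (a point of `ℕ → ℝ` with the product topology) converge to the expectation under the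
Poisson-Dirichlet law. -/
def PDLimit (p : ℕ) [Fact p.Prime] (μ : ZMod p → ℝ) : Prop :=
  ∀ (Om : Type) [MeasurableSpace Om] (P : Measure Om) [IsProbabilityMeasure P]
    (eps : ℕ → Om → ZMod p), (∀ i, Measurable (eps i)) → iIndepFun eps P →
    (∀ i x, P.real {w | eps i w = x} = μ x) →
    ∀ g : BoundedContinuousFunction (ℕ → ℝ) ℝ,
      Tendsto (fun n => ∫ w, g (degSeq (∑ i ∈ Finset.range (n + 1), C (eps i w) * X ^ i)) ∂P) atTop
        (𝓝 (∫ x, g x ∂PDlaw))

theorem integral_iid (μ : ZMod p → ℝ) {Om : Type} [MeasurableSpace Om] (P : Measure Om)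
    [IsProbabilityMeasure P] (eps : ℕ → Om → ZMod p) (hm : ∀ i, Measurable (eps i))
    (hi : iIndepFun eps P) (hμ : ∀ i x, P.real {w | eps i w = x} = μ x)
    (G : (ZMod p)[X] → ℝ) (n : ℕ) :
    ∫ w, G (∑ i ∈ Finset.range n, C (eps i w) * X ^ i) ∂P = EE μ G n := by
  have h1 : ∀ w, ∑ i ∈ Finset.range n, C (eps i w) * X ^ i =
      poly (fun i : Fin n => eps i w) := by
    intro w
    unfold poly
    rw [Finset.sum_range]
  simp_rw [h1]
  have hξ : Measurable (fun w (i : Fin n) => eps i w) := measurable_pi_iff.2 fun i => hm i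
  have h2 : ∫ w, G (poly (fun i : Fin n => eps i w)) ∂P =
      ∫ a, G (poly a) ∂(P.map (fun w (i : Fin n) => eps i w)) := by
    rw [integral_map hξ.aemeasurable (measurable_fin (fun a => G (poly a))).aestronglyMeasurable]
  have h3 : iIndepFun (fun (i : Fin n) (w : Om) => eps (i : ℕ) w) P :=
    hi.precomp (g := fun i : Fin n => (i : ℕ)) Fin.val_injective
  rw [iIndepFun_iff_map_fun_eq_pi_map (fun i : Fin n => (hm i).aemeasurable)] at h3
  have : ∀ i : Fin n, IsProbabilityMeasure (P.map (eps i)) := fun i =>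
    Measure.isProbabilityMeasure_map (hm i).aemeasurable
  rw [h2, h3, integral_fintype Integrable.of_finite]
  unfold EE
  refine Finset.sum_congr rfl fun a _ => ?_
  rw [smul_eq_mul]
  congr 1
  rw [Measure.real, Measure.pi_singleton, ENNReal.toReal_prod]
  refine Finset.prod_congr rfl fun i _ => ?_
  rw [Measure.map_apply (hm i) (measurableSet_singleton _), ← hμ i (a i)]
  rfl

/-- **Passage from the monic models to `f_n`** for arbitrary independent coefficients. -/
theorem law_wrap (μ : ZMod p → ℝ) (h0 : ∀ x, 0 ≤ μ x) (h1 : ∑ x, μ x = 1) (h2 : μ 0 < 1)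
    (H : ∀ c : ZMod p, c ≠ 0 → ∀ g : BoundedContinuousFunction (ℕ → ℝ) ℝ,
      Tendsto (fun n => ∑ a : Fin n → ZMod p, (∏ i, μ (c * a i)) * g (degSeq (mon a)))
        atTop (𝓝 (∫ x, g x ∂PDlaw))) : PDLimit p μ := by
  intro Om _ P _ eps hm hi hμ g
  have h3 := EE_tendsto μ h0 h1 h2 (fun f => g (degSeq f))
    (fun c hc f => by rw [degSeq_C_mul hc]) (∫ x, g x ∂PDlaw) (fun c hc => H c hc g)
  have h4 := h3.comp (tendsto_add_atTop_nat 1)
  refine h4.congr fun n => ?_
  exact (integral_iid μ P eps hm hi hμ (fun f => g (degSeq f)) (n + 1)).symm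

end

end MP6cc1fa
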